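import Pool.Agent.Lib.MP_640417_ag.Dfr.Rel

/-!
# MP_640417_ag, T3 (abelian varieties with factors of type III): definitions
-/

set_option autoImplicit false

namespace Pool.Agent.Lib.MP_640417_ag.T3

open Module TensorProduct Pool.Agent.Lib.MP_640417_ag Pool.Agent.Lib.MP_640417_ag.Frob
  Pool.Agent.Lib.MP_640417_ag.Four Pool.Agent.Lib.MP_640417_ag.Ty
  Pool.Agent.Lib.MP_640417_ag.Lef Pool.Agent.Lib.MP_640417_ag.Dfr

section alg

variable {K V : Type} [Field K] [AddCommGroup V] [Module K V]

/-- `c` is a skew element of rank one of the algebra `C`. -/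
structure SkewOne (form : LinearMap.BilinForm K V) (C : Subalgebra K (Module.End K V))
    (c : Module.End K V) : Prop where
  mem : c ∈ C
  ne : c ≠ 0
  skew : Skew form c
  one : ∀ d ∈ C, ∃ t : K, c * d * c = t • c

/-- `e` is a minimal idempotent of the algebra `C`. -/
structure MinIdem (C : Subalgebra K (Module.End K V)) (e : Module.End K V) : Prop where
  mem : e ∈ C
  ne : e ≠ 0
  idem : e * e = e
  one : ∀ c ∈ C, ∃ t : K, e * c * e = t • e

/-- A decomposition of `q` into minimal orthogonal idempotents of `C`, permuted by the adjunction, such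
that no member is equivalent to its adjoint, except if it is self-adjoint. -/
structure SysQ (form : LinearMap.BilinForm K V) (C : Subalgebra K (Module.End K V))
    (q : Module.End K V) {I : Type} [Fintype I] (st : I → I) (ε : I → Module.End K V) : Prop where
  mem : ∀ j, ε j ∈ C
  ne : ∀ j, ε j ≠ 0
  sum : ∑ j, ε j = q
  idem : ∀ j, ε j * ε j = ε j
  orth : ∀ j k, j ≠ k → ε j * ε k = 0
  inv : ∀ j, st (st j) = j
  adj : ∀ j x y, form (ε j x) y = form x (ε (st j) y)
  one : ∀ j, ∀ c ∈ C, ∃ t : K, ε j * c * ε j = t • ε j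
  far : ∀ j, st j ≠ j → ∀ c ∈ C, ε (st j) * c * ε j = 0

end alg

/-- **No factors of type III**: no nonzero skew element `c` of the commutant (over an algebraic closure
`K`) satisfies `c d c ∈ K c` for all `d` in the commutant. -/
def NoIII {Γ : Type} [Group Γ] [TopologicalSpace Γ] {F : Type} [Field F] [TopologicalSpace F]
    {V : Type} [AddCommGroup V] [Module F V] (ρ : H1Rep Γ F V) : Prop :=
  ∀ c, ¬ SkewOne (ρ.form.baseChange (AlgebraicClosure F)) (comK ρ) c

end Pool.Agent.Lib.MP_640417_ag.T3
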