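import Pool.Agent.Lib.MP_640417_ag.T3.NoEx
import Pool.Agent.Lib.MP_640417_ag.Wn.Ball
import Pool.Agent.Lib.MP_640417_ag.Dfr.Stmt

/-!
# MP_640417_ag: one Frobenius element decides, almost all Frobenius elements certify
-/

set_option autoImplicit false

namespace Pool.Agent.Lib.MP_640417_ag.T3

open Module TensorProduct MeasureTheory Pool.Agent.Lib.MP_640417_ag
  Pool.Agent.Lib.MP_640417_ag.Frob
  Pool.Agent.Lib.MP_640417_ag.Four Pool.Agent.Lib.MP_640417_ag.Ty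
  Pool.Agent.Lib.MP_640417_ag.Lef Pool.Agent.Lib.MP_640417_ag.Dfr
  Pool.Agent.Lib.MP_640417_ag.Glob Pool.Agent.Lib.MP_640417_ag.Gn
  Pool.Agent.Lib.MP_640417_ag.Ctl
  Pool.Agent.Lib.MP_640417_ag.Gen4 Pool.Agent.Lib.MP_640417_ag.Wn

variable (l : ℕ) [Fact l.Prime] {Γ : Type} [Group Γ]
    [TopologicalSpace Γ] [IsTopologicalGroup Γ] [CompactSpace Γ] {V : Type} [AddCommGroup V]
    [Module ℚ_[l] V] [FiniteDimensional ℚ_[l] V] (ρ : H1Rep Γ ℚ_[l] V)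

omit [IsTopologicalGroup Γ] [CompactSpace Γ] in
theorem frobLike_res (U : OpenSubgroup Γ) (γ : U) (h : FrobLike ρ γ) :
    FrobLike (res ρ U) γ := by
  obtain ⟨p, P, hP, hz⟩ := h
  exact ⟨p, P, ⟨hP.prime, hP.pos, hP.charpoly, hP.cyclotomic⟩, hz⟩

/-- Almost all Frobenius elements near the identity have no relations between determinants. -/
theorem near_free (hss : Semisimple ρ) (h3 : HasSys ρ) (hW : ¬ WeilRel ρ)
    [MeasurableSpace Γ] [BorelSpace Γ] (ν : Measure Γ) [ν.IsHaarMeasure] :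
    NearOne ν (fun γ => FrobLike ρ γ → DetFree ρ γ) := by
  obtain ⟨U, hU⟩ := exists_U0 ρ
  have := topGroup_U U
  have := compact_U U
  have hoe : Topology.IsOpenEmbedding (Subtype.val : U → Γ) := U.isOpen.isOpenEmbedding_subtypeVal
  have hν' : (ν.comap (Subtype.val : U → Γ)).IsHaarMeasure :=
    Measure.IsHaarMeasure.comap (f := U.toSubgroup.subtype) (mH := inferInstance) ν hoe
  have hfull : ∀ c, CommF (res ρ U) c → ∀ γ, c * (res ρ U).T γ = (res ρ U).T γ * c :=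
    fun c hc γ' => (hU γ'.1).mp γ'.2 c ((commF_res ρ U c).mp hc)
  obtain ⟨N, st, ε, hS⟩ := (hasSys_res ρ U).mpr h3
  obtain ⟨O, hO, hOn, hOg⟩ := exists_ball (ν.comap (Subtype.val : U → Γ)) (res ρ U) hfull hS
    (fun h => hW ((weilRel_res ρ U).mp h))
  refine ⟨U, (Subtype.val : U → Γ) '' O, U.isOpen.isOpenMap_subtype_val O hO, ?_, ?_, ?_⟩
  · rintro _ ⟨γ, -, rfl⟩
    exact γ.2
  · have h4 : ((U : Set Γ) \ (Subtype.val : U → Γ) '' O) = (Subtype.val : U → Γ) '' Oᶜ := by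
      ext γ
      constructor
      · rintro ⟨h5, h6⟩
        exact ⟨⟨γ, h5⟩, fun h7 => h6 ⟨_, h7, rfl⟩, rfl⟩
      · rintro ⟨γ', h5, rfl⟩
        refine ⟨γ'.2, ?_⟩
        rintro ⟨γ'', h6, h7⟩
        exact h5 (Subtype.val_injective h7 ▸ h6)
    rw [h4, ← hoe.measurableEmbedding.comap_apply]
    exact hOn
  · rintro _ ⟨γ, hγ, rfl⟩ hF
    exact (detFree_res ρ U γ).mp (hOg γ hγ (frobLike_res l ρ U γ hF))

omit [IsTopologicalGroup Γ] [CompactSpace Γ] in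
theorem nearOne_and {P Q : Γ → Prop} [MeasurableSpace Γ] {ν : Measure Γ} (h1 : NearOne ν P)
    (h2 : NearOne ν Q) : NearOne ν (fun γ => P γ ∧ Q γ) := by
  obtain ⟨U, O, hO, hOU, hν, hP⟩ := h1
  obtain ⟨U', O', hO', hOU', hν', hQ⟩ := h2
  refine ⟨U ⊓ U', O ∩ O', hO.inter hO', fun γ hγ => ⟨hOU hγ.1, hOU' hγ.2⟩, ?_,
    fun γ hγ => ⟨hP γ hγ.1, hQ γ hγ.2⟩⟩
  refine measure_mono_null ?_ (measure_union_null hν hν')
  rintro γ ⟨h3, h4⟩
  by_cases h5 : γ ∈ O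
  · exact Or.inr ⟨h3.2, fun h6 => h4 ⟨h5, h6⟩⟩
  · exact Or.inl ⟨h3.1, h5⟩

theorem nearOne_dense {P : Γ → Prop} [MeasurableSpace Γ] [BorelSpace Γ] {ν : Measure Γ}
    [ν.IsHaarMeasure] (h1 : NearOne ν P) {D : Set Γ} (hD : Dense D) : ∃ γ ∈ D, P γ := by
  obtain ⟨U, O, hO, hOU, hν, hP⟩ := h1
  have hne : O.Nonempty := by
    by_contra h1
    rw [Set.not_nonempty_iff_eq_empty] at h1
    rw [h1, Set.sdiff_empty] at hν
    exact (U.isOpen.measure_pos ν ⟨1, U.one_mem⟩).ne' hν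
  obtain ⟨γ, hγO, hγD⟩ := hD.inter_open_nonempty O hO hne
  exact ⟨γ, hγD, hP γ hγO⟩

/-- **One Frobenius element decides, and almost all Frobenius elements certify.** -/
theorem frobenius_decides (hss : Semisimple ρ) (hF : Dense {γ | FrobLike ρ γ})
    [MeasurableSpace Γ] [BorelSpace Γ] (ν : Measure Γ) [ν.IsHaarMeasure] :
    List.TFAE [NoExotic ρ, NoIII ρ ∧ DivGen ρ 4 2 ∧ ¬ WeilRel ρ,
      NoIII ρ ∧ NearOne ν (fun γ => Good ρ γ ∧ (FrobLike ρ γ → DetFree ρ γ)),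
      NoIII ρ ∧ ∃ γ, FrobLike ρ γ ∧ Good ρ γ ∧ DetFree ρ γ,
      NoIII ρ ∧ ∃ γ, Detects ρ γ ∧ DetFree ρ γ] := by
  rw [divGen_iff]
  tfae_have 1 → 2 := by
    intro h
    have h3 := noIII_of_noExotic l ρ hss hF h
    exact ⟨h3, ((noExotic_iff_of l ρ hss (hasSys_of_noIII ρ hss h3)).mp h).1, not_weilRel ρ h⟩
  tfae_have 2 → 3 := by
    rintro ⟨h3, h4, hW⟩
    have hS := hasSys_of_noIII ρ hss h3
    have h1 := tfae_ae l ρ hss (exists_inv_of ρ hss hS) ν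
    have h2 : NearOne ν (Good ρ) := (h1.out 1 3 rfl rfl).mp (lef_of_div l ρ h4)
    exact ⟨h3, nearOne_and h2 (near_free l ρ hss hS hW ν)⟩
  tfae_have 3 → 4 := by
    rintro ⟨h3, h⟩
    obtain ⟨γ, hγ, h1, h2⟩ := nearOne_dense h hF
    exact ⟨h3, γ, hγ, h1, h2 hγ⟩
  tfae_have 4 → 5 := by
    rintro ⟨h3, γ, -, h1, h2⟩
    exact ⟨h3, γ, detects_of_good l ρ hss h1, h2⟩
  tfae_have 5 → 1 := by
    rintro ⟨h3, γ, h1, h2⟩
    exact noExotic_of_detects_of l ρ hss (hasSys_of_noIII ρ hss h3) h1 h2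
  tfae_finish

end Pool.Agent.Lib.MP_640417_ag.T3
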