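import Pool.Agent.Lib.MP_640417_ag.T3.Defs
import Pool.Agent.Lib.MP_640417_ag.Dfr.Baire

/-!
# MP_640417_ag, T3, module DetO (130 lines): the determinant on an orthogonal component

`det_comm`: `det (1 + X * Y) = det (1 + Y * X)` (matrices: `Matrix.det_one_add_mul_comm`).
`det_adj`: let `e = c * d`, `e e = e` (`c d c = c`), `e' = -(d' * c)` its adjoint. `g'` commutes with `C` too (take adjoints; `C` is closed under adjoints).
`det (e g + (1 - e)) = det (g' e' + (1 - e')) = det (e' g' + (1 - e'))` (`Adj.det`). Let `S = g' - 1`, which commutes with `c, d, d'`. `e' g' + (1 - e') = 1 + e' S` and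
`det (1 + e' S) = det (1 + d' * (-c S)) = det (1 + (-c S) * d') = det (1 + e₂ S)` with `e₂ = -(c * d')`; adjoint of `c d c = c`: `c d' c = -c`, so `e₂ c = c`, `e₂ e = e` and
`e e₂ = e₂` (`c d c = c`), and `det (1 + e S) = det (1 + e₂ * (e S)) = det (1 + (e S) * e₂) = det (1 + S * (e * e₂)) = det (1 + e₂ S)`. So it is `det (e g' + (1 - e))`.
`det_sq`: `(T γ)' = (χ γ)⁻¹ • T γ⁻¹`; by `det_adj` and `bai_mul` `Δ (T γ) ^ 2 = Δ (T γ) * Δ ((χ γ)⁻¹ • T γ⁻¹) = Δ ((χ γ)⁻¹ • 1) = (χ γ)⁻¹ ^ finrank (range e)` (`det_smul'` in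
`Dfr/Rel.lean`), `range (c * d) = range c`.
-/

set_option autoImplicit false

namespace Pool.Agent.Lib.MP_640417_ag.T3

open Module TensorProduct Pool.Agent.Lib.MP_640417_ag Pool.Agent.Lib.MP_640417_ag.Frob
  Pool.Agent.Lib.MP_640417_ag.Four Pool.Agent.Lib.MP_640417_ag.Ty
  Pool.Agent.Lib.MP_640417_ag.Lef Pool.Agent.Lib.MP_640417_ag.Dfr
  Pool.Agent.Lib.MP_640417_ag.Dfr.RelM

theorem det_comm' {K V : Type} [Field K] [AddCommGroup V] [Module K V] [FiniteDimensional K V]
    (X Y : Module.End K V) : LinearMap.det (1 + X * Y) = LinearMap.det (1 + Y * X) := by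
  let b := Module.finBasis K V
  rw [← LinearMap.det_toMatrix b, ← LinearMap.det_toMatrix b, map_add, map_add,
    LinearMap.toMatrix_mul, LinearMap.toMatrix_mul, LinearMap.toMatrix_one,
    Matrix.det_one_add_mul_comm]

theorem det_adj {K V : Type} [Field K] [CharZero K] [AddCommGroup V] [Module K V]
    [FiniteDimensional K V] {form : LinearMap.BilinForm K V}
    {C : Subalgebra K (Module.End K V)} (halt : ∀ x, form x x = 0)
    (hnd : ∀ x, (∀ y, form x y = 0) → x = 0) (hadj : AdjC form C)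
    {c d : Module.End K V} (hc : SkewOne form C c) (hd : d ∈ C) (hcd : c * d * c = c)
    {g g' : Module.End K V} (hg : ∀ a ∈ C, a * g = g * a) (hgg : Adj form g g') :
    LinearMap.det ((c * d) * g + (1 - c * d)) = LinearMap.det ((c * d) * g' + (1 - c * d)) := by
  have hca : Adj form c (-c) := by
    intro x y
    rw [LinearMap.neg_apply, map_neg]
    exact eq_neg_of_add_eq_zero_left (hc.skew x y)
  have hsymm : ∀ {a a' : Module.End K V}, Adj form a a' → Adj form a' a := by
    intro a a' h x y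
    rw [anti' halt (a' x) y, ← h y x, anti' halt (a y) x, neg_neg]
  obtain ⟨d', hd', hdd⟩ := hadj d hd
  replace hdd : Adj form d d' := hdd
  have hg' : ∀ a ∈ C, a * g' = g' * a := by
    intro a ha
    obtain ⟨a', ha', haa⟩ := hadj a ha
    replace haa : Adj form a a' := haa
    have h1 : Adj form (g * a') (a * g') := hgg.mul (hsymm haa)
    have h2 : Adj form (a' * g) (g' * a) := (hsymm haa).mul hgg
    rw [hg a' ha'] at h2
    exact Adj.unique halt hnd h1 h2
  have hcdc : c * (d' * c) = -c := by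
    have h1 : Adj form (c * d * c) (-c * (d' * -c)) := (hca.mul hdd).mul hca
    rw [hcd] at h1
    have h2 := Adj.unique halt hnd h1 hca
    rw [mul_neg, mul_neg, neg_mul, neg_neg] at h2
    exact h2
  -- the adjoint
  have h1 : Adj form ((c * d) * g + (1 - c * d)) (g' * (d' * -c) + (1 - d' * -c)) :=
    ((hca.mul hdd).mul hgg).add (Adj.one.sub (hca.mul hdd))
  rw [← h1.det hnd]
  obtain ⟨S, hS⟩ : ∃ S, S = g' - 1 := ⟨_, rfl⟩
  have hSC : ∀ a ∈ C, a * S = S * a := by
    intro a ha
    rw [hS, mul_sub, sub_mul, hg' a ha, mul_one, one_mul]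
  have h2 : g' * (d' * -c) + (1 - d' * -c) = 1 + (S * d') * (-c) := by
    rw [hS, mul_assoc, sub_mul, one_mul]
    abel
  have h3 : (c * d) * g' + (1 - c * d) = 1 + (-(c * d')) * (c * d * S) := by
    have h4 : (-(c * d')) * (c * d * S) = c * d * S := by
      calc (-(c * d')) * (c * d * S) = -((c * (d' * c)) * (d * S)) := by
            rw [neg_mul]
            simp only [mul_assoc]
        _ = c * d * S := by
            rw [hcdc, neg_mul, neg_neg, mul_assoc]
    rw [h4, hS, mul_sub, mul_one]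
    abel
  rw [h2, h3, det_comm' (S * d') (-c), det_comm' (-(c * d')) (c * d * S)]
  congr 2
  calc -c * (S * d') = -(c * (S * d')) := by rw [neg_mul]
    _ = -(c * (d' * S)) := by rw [hSC d' hd']
    _ = -((c * d * c) * (d' * S)) := by rw [hcd]
    _ = -(c * d * ((c * d') * S)) := by simp only [mul_assoc]
    _ = -(c * d * (S * (c * d'))) := by rw [hSC _ (C.mul_mem hc.mem hd')]
    _ = c * d * S * -(c * d') := by
      rw [mul_neg]
      simp only [mul_assoc]

theorem det_sq {K V : Type} [Field K] [CharZero K] [AddCommGroup V] [Module K V]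
    [FiniteDimensional K V] {form : LinearMap.BilinForm K V}
    {C : Subalgebra K (Module.End K V)} (halt : ∀ x, form x x = 0)
    (hnd : ∀ x, (∀ y, form x y = 0) → x = 0) (hadj : AdjC form C)
    {Γ : Type} [Group Γ] (T : Γ →* Module.End K V) (χ : Γ →* Kˣ)
    (heq : ∀ γ x y, form (T γ x) (T γ y) = ((χ γ)⁻¹ : Kˣ).val * form x y)
    (hT : ∀ a ∈ C, ∀ γ, a * T γ = T γ * a)
    {c d : Module.End K V} (hc : SkewOne form C c) (hd : d ∈ C) (hcd : c * d * c = c) (γ : Γ) :
    LinearMap.det ((c * d) * T γ + (1 - c * d)) ^ 2 =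
      ((χ γ)⁻¹ : Kˣ).val ^ finrank K (LinearMap.range c) := by
  have hTT : T γ * T γ⁻¹ = 1 := by rw [← map_mul, mul_inv_cancel, map_one]
  have hTa : Adj form (T γ) (((χ γ)⁻¹ : Kˣ).val • T γ⁻¹) := by
    intro x y
    rw [LinearMap.smul_apply, map_smul, smul_eq_mul, ← heq, ← Module.End.mul_apply, hTT,
      Module.End.one_apply]
  have hee : (c * d) * (c * d) = c * d := by rw [← mul_assoc, hcd]
  have hre : LinearMap.range (c * d) = LinearMap.range c := by
    apply le_antisymm
    · rintro _ ⟨x, rfl⟩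
      exact ⟨d x, rfl⟩
    · rintro _ ⟨x, rfl⟩
      exact ⟨c x, by rw [← Module.End.mul_apply, hcd]⟩
  have h1 := det_adj halt hnd hadj hc hd hcd (fun a ha => hT a ha γ) hTa
  have h2 : T γ * (((χ γ)⁻¹ : Kˣ).val • T γ⁻¹) = ((χ γ)⁻¹ : Kˣ).val • 1 := by
    rw [mul_smul_comm, hTT]
  rw [pow_two]
  nth_rewrite 2 [h1]
  rw [← det_mul' hee (hT _ (C.mul_mem hc.mem hd) γ), h2, det_smul' hee, hre]

end Pool.Agent.Lib.MP_640417_ag.T3
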