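import Pool.Agent.Lib.MP_640417_ag.T3.DetO

/-!
# MP_640417_ag, T3, module EvenA (120 lines): orthogonal similitudes in odd dimension have a real eigenvalue

Let `A = T γ`, `e = c * d`, `Δ g = det (e g + (1 - e))` for `g` commuting with `C` (multiplicative by `bai_mul`), `r = finrank (range c) = 2 k + 1`.
`det_sq`: `Δ A ^ 2 = p ^ r`. Put `δ = Δ A / p ^ k`, so `δ ^ 2 = p`, `δ ≠ 0`. Let `B = A - δ • 1`; its adjoint is
`B' = p • A⁻¹ - δ • 1 = (-δ) • A⁻¹ * B` (`A⁻¹ = T γ⁻¹`, `p = δ ^ 2`). By `det_adj` `Δ B = Δ B' = (-δ) ^ r * (Δ A)⁻¹ * Δ B` (`det_smul'`), and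
`(-δ) ^ r = -δ * p ^ k = -Δ A`. So `Δ B = -Δ B = 0`. There is `v ≠ 0` with `e B v + v - e v = 0` (`LinearMap.bot_lt_ker_of_det_eq_zero` or similar); apply `e`: `e B v = 0`, so `v = e v` and
`B v = B e v = e B v = 0`: `A v = δ • v`.
-/

set_option autoImplicit false

namespace Pool.Agent.Lib.MP_640417_ag.T3

open Module TensorProduct Pool.Agent.Lib.MP_640417_ag Pool.Agent.Lib.MP_640417_ag.Frob
  Pool.Agent.Lib.MP_640417_ag.Four Pool.Agent.Lib.MP_640417_ag.Ty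
  Pool.Agent.Lib.MP_640417_ag.Lef Pool.Agent.Lib.MP_640417_ag.Dfr
  Pool.Agent.Lib.MP_640417_ag.Dfr.RelM

theorem exists_real {K V : Type} [Field K] [CharZero K] [AddCommGroup V] [Module K V]
    [FiniteDimensional K V] {form : LinearMap.BilinForm K V}
    {C : Subalgebra K (Module.End K V)} (halt : ∀ x, form x x = 0)
    (hnd : ∀ x, (∀ y, form x y = 0) → x = 0) (hadj : AdjC form C)
    {Γ : Type} [Group Γ] (T : Γ →* Module.End K V) (χ : Γ →* Kˣ)
    (heq : ∀ γ x y, form (T γ x) (T γ y) = ((χ γ)⁻¹ : Kˣ).val * form x y)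
    (hT : ∀ a ∈ C, ∀ γ, a * T γ = T γ * a)
    {c d : Module.End K V} (hc : SkewOne form C c) (hd : d ∈ C) (hcd : c * d * c = c) (γ : Γ)
    (hodd : Odd (finrank K (LinearMap.range c))) :
    ∃ δ : K, δ ^ 2 = ((χ γ)⁻¹ : Kˣ).val ∧ (T γ).HasEigenvalue δ := by
  obtain ⟨μ, hμ⟩ : ∃ μ : Kˣ, μ = (χ γ)⁻¹ := ⟨_, rfl⟩
  obtain ⟨k, hk⟩ := hodd
  obtain ⟨e, he⟩ : ∃ e, e = c * d := ⟨_, rfl⟩
  have hee : e * e = e := by rw [he, ← mul_assoc, hcd]
  have hre : LinearMap.range e = LinearMap.range c := by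
    rw [he]
    apply le_antisymm
    · rintro _ ⟨x, rfl⟩
      exact ⟨d x, rfl⟩
    · rintro _ ⟨x, rfl⟩
      exact ⟨c x, by rw [← Module.End.mul_apply, hcd]⟩
  have heC : e ∈ C := by
    rw [he]
    exact C.mul_mem hc.mem hd
  have hTT : T γ * T γ⁻¹ = 1 := by rw [← map_mul, mul_inv_cancel, map_one]
  have hTT' : T γ⁻¹ * T γ = 1 := by rw [← map_mul, inv_mul_cancel, map_one]
  have hsq := det_sq halt hnd hadj T χ heq hT hc hd hcd γ
  rw [← he, ← hμ, hk] at hsq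
  obtain ⟨D, hD⟩ : ∃ D, D = LinearMap.det (e * T γ + (1 - e)) := ⟨_, rfl⟩
  rw [← hD] at hsq
  have hμ0 : (μ : K) ≠ 0 := μ.ne_zero
  obtain ⟨δ, hδ⟩ : ∃ δ, δ = D / (μ : K) ^ k := ⟨_, rfl⟩
  have hδD : δ * (μ : K) ^ k = D := by
    rw [hδ, div_mul_cancel₀ _ (pow_ne_zero _ hμ0)]
  have hδ2 : δ ^ 2 = (μ : K) := by
    have h1 : δ ^ 2 * ((μ : K) ^ k) ^ 2 = μ * ((μ : K) ^ k) ^ 2 := by
      rw [← mul_pow, hδD, hsq]
      ring
    exact mul_right_cancel₀ (pow_ne_zero _ (pow_ne_zero _ hμ0)) h1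
  have hD0 : D ≠ 0 := by
    intro h
    rw [h] at hsq
    exact pow_ne_zero _ hμ0 (by rw [← hsq]; ring)
  obtain ⟨B, hB⟩ : ∃ B, B = T γ - δ • (1 : Module.End K V) := ⟨_, rfl⟩
  have hTa : Adj form (T γ) ((μ : K) • T γ⁻¹) := by
    intro x y
    rw [LinearMap.smul_apply, map_smul, smul_eq_mul, hμ, ← heq, ← Module.End.mul_apply, hTT,
      Module.End.one_apply]
  have hBa : Adj form B ((μ : K) • T γ⁻¹ - δ • (1 : Module.End K V)) := by
    rw [hB]
    exact hTa.sub (Adj.one.smul δ)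
  have hBC : ∀ a ∈ C, a * B = B * a := by
    intro a ha
    rw [hB, mul_sub, sub_mul, hT a ha γ, mul_smul_comm, smul_mul_assoc, mul_one, one_mul]
  have h1 : (μ : K) • T γ⁻¹ - δ • (1 : Module.End K V) = ((-δ) • 1) * (T γ⁻¹ * B) := by
    rw [hB, mul_sub, hTT', mul_smul_comm, mul_one, smul_mul_assoc, one_mul, smul_sub, smul_smul,
      ← hδ2]
    have h2 : -δ * δ = -(δ ^ 2) := by ring
    rw [h2, neg_smul, neg_smul, sub_neg_eq_add]
    abel
  have h2 := det_adj halt hnd hadj hc hd hcd hBC hBa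
  have hcom : e * ((-δ) • (1 : Module.End K V)) = ((-δ) • 1) * e := by
    rw [mul_smul_comm, mul_one, smul_mul_assoc, one_mul]
  rw [← he, h1, det_mul' hee hcom, det_mul' hee (hT e heC γ⁻¹), det_smul' hee, hre, hk] at h2
  have h3 : D * LinearMap.det (e * T γ⁻¹ + (1 - e)) = 1 := by
    rw [hD, ← det_mul' hee (hT e heC γ), hTT, mul_one, add_sub_cancel, map_one]
  have h4 : (-δ) ^ (2 * k + 1) = -D := by
    rw [← hδD, ← hδ2, Odd.neg_pow ⟨k, rfl⟩ δ]
    ring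
  have h5 : LinearMap.det (e * B + (1 - e)) = 0 := by
    have h6 : LinearMap.det (e * B + (1 - e)) = -LinearMap.det (e * B + (1 - e)) := by
      calc LinearMap.det (e * B + (1 - e)) = (-δ) ^ (2 * k + 1) *
            (LinearMap.det (e * T γ⁻¹ + (1 - e)) * LinearMap.det (e * B + (1 - e))) := h2
        _ = -((D * LinearMap.det (e * T γ⁻¹ + (1 - e))) *
            LinearMap.det (e * B + (1 - e))) := by rw [h4]; ring
        _ = _ := by rw [h3, one_mul]
    have h7 : (2 : K) * LinearMap.det (e * B + (1 - e)) = 0 := by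
      rw [two_mul]
      nth_rewrite 1 [h6]
      exact neg_add_cancel _
    exact (mul_eq_zero.mp h7).resolve_left two_ne_zero
  obtain ⟨v, hv, hv0⟩ := Submodule.exists_mem_ne_zero_of_ne_bot
    (LinearMap.bot_lt_ker_of_det_eq_zero h5).ne'
  rw [LinearMap.mem_ker] at hv
  have h6 : e (B v) + (v - e v) = 0 := hv
  have h7 : e (B v) = 0 := by
    have h8 := congrArg e h6
    rw [map_add, map_sub, map_zero, ← Module.End.mul_apply e e, ← Module.End.mul_apply e e, hee,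
      sub_self, add_zero] at h8
    exact h8
  rw [h7, zero_add] at h6
  have h8 : e v = v := (sub_eq_zero.mp h6).symm
  have h9 : B v = 0 := by
    rw [← h8, ← Module.End.mul_apply, ← hBC e heC, Module.End.mul_apply, h7]
  refine ⟨δ, by rw [hδ2, hμ], ?_⟩
  refine Module.End.hasEigenvalue_of_hasEigenvector (x := v) ⟨?_, hv0⟩
  rw [Module.End.mem_eigenspace_iff]
  rw [hB, LinearMap.sub_apply, LinearMap.smul_apply, Module.End.one_apply] at h9
  exact sub_eq_zero.mp h9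

end Pool.Agent.Lib.MP_640417_ag.T3
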