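import Mathlib.NumberTheory.Padics.PadicIntegers
import Mathlib.LinearAlgebra.Matrix.Charpoly.Basic
import Mathlib.FieldTheory.IsAlgClosed.AlgebraicClosure
import Mathlib.NumberTheory.Real.Irrational
import Pool.Agent.Lib.MP_640417_ag.Glob.Defs

/-!
# MP_640417_ag, T3, module EvenB (150 lines): no real Weil numbers near the identity

`root_neg`: divide `P` by the monic `X ^ 2 - p`: the remainder `a X + b` has integral coefficients (`Polynomial.modByMonic`), `a δ + b = 0` in `K`. If `a ≠ 0`, then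
`a ^ 2 * p = b ^ 2` in `ℤ` (`(a δ) ^ 2 = b ^ 2`, `K` has characteristic zero), impossible for a prime `p` (parity of the multiplicity of `p`: `Nat.Prime.multiplicity`, or irrationality of `√p`:
`Nat.Prime.irrational_sqrt`). So `a = 0`, `b = 0`, `X ^ 2 - p ∣ P` and `P (-δ) = 0`.

`not_near`: `M = 1 + l ^ 2 • X`, where `X` has entries in `ℤ_[l]` (norm at most one). The roots of the characteristic polynomial of `M` in `K` are the `1 + l ^ 2 * y`, `y` a root of the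
characteristic polynomial of `X` (`det ((1 + l² y) • 1 - M) = (l²) ^ card I * det (y • 1 - X)`). `(δ - 1) / l ^ 2` and `(-δ - 1) / l ^ 2` are integral over `ℤ_[l]` (root of the monic polynomial
`charpoly` of the matrix over `ℤ_[l]`), so their sum `-2 / l ^ 2 ∈ ℚ_[l]` is integral over `ℤ_[l]`, so in `ℤ_[l]` (`IsIntegrallyClosed`), i.e. `‖2 / l ^ 2‖ ≤ 1`; but `‖l ^ 2‖ = l ^ (-2)`
and `‖2‖ ≥ 1 / 2` if `l = 2`, `= 1` if `l` is odd (`padicNormE`), contradiction.
-/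

set_option autoImplicit false

namespace Pool.Agent.Lib.MP_640417_ag.T3

open Polynomial Matrix Pool.Agent.Lib.MP_640417_ag.Glob

theorem root_neg {K : Type} [Field K] [CharZero K] {P : ℤ[X]} {p : ℕ} (hp : p.Prime) {δ : K}
    (hδ : δ ^ 2 = p) (h : aeval δ P = 0) : aeval (-δ) P = 0 := by
  obtain ⟨m, hm⟩ : ∃ m : ℤ[X], m = X ^ 2 - C (p : ℤ) := ⟨_, rfl⟩
  have hmm : m.Monic := by
    rw [hm]
    exact monic_X_pow_sub_C _ two_ne_zero
  have hdeg : m.natDegree = 2 := by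
    rw [hm]
    exact natDegree_X_pow_sub_C
  have hev : ∀ t : K, t ^ 2 = p → aeval t m = 0 := by
    intro t ht
    rw [hm]
    simp [ht]
  have hR := modByMonic_add_div P m
  have hR' : (P %ₘ m).natDegree < 2 := by
    have h1 := natDegree_modByMonic_lt P hmm (by
      intro h1
      rw [h1, natDegree_one] at hdeg
      omega)
    rwa [hdeg] at h1
  obtain ⟨R, hRR⟩ : ∃ R : ℤ[X], R = P %ₘ m := ⟨_, rfl⟩
  rw [← hRR] at hR hR'
  have hR2 : R = C (R.coeff 1) * X + C (R.coeff 0) := eq_X_add_C_of_natDegree_le_one (by omega)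
  have hδR : aeval δ R = 0 := by
    have h1 := congrArg (aeval δ) hR
    rw [map_add, map_mul, hev δ hδ, zero_mul, add_zero, h] at h1
    exact h1
  rw [hR2, map_add, map_mul, aeval_C, aeval_C, aeval_X, algebraMap_int_eq, eq_intCast,
    eq_intCast] at hδR
  obtain ⟨a, ha⟩ : ∃ a, a = R.coeff 1 := ⟨_, rfl⟩
  obtain ⟨b, hb⟩ : ∃ b, b = R.coeff 0 := ⟨_, rfl⟩
  rw [← ha, ← hb] at hδR hR2
  have h2 : a ^ 2 * (p : ℤ) = b ^ 2 := by
    have h3 : ((a : K)) ^ 2 * (p : K) = (b : K) ^ 2 := by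
      rw [← hδ]
      linear_combination (a * δ - b : K) * hδR
    exact_mod_cast h3
  have ha0 : a = 0 := by
    by_contra hne
    have hne' : (a : ℝ) ≠ 0 := by exact_mod_cast hne
    have h3 : ((b : ℝ) / a) ^ 2 = p := by
      have h4 : ((a : ℝ)) ^ 2 * (p : ℝ) = (b : ℝ) ^ 2 := by exact_mod_cast h2
      field_simp
      linarith
    have h5 : Real.sqrt p = |(b : ℝ) / a| := by
      rw [← h3, Real.sqrt_sq_eq_abs]
    apply hp.irrational_sqrt
    refine ⟨|(b : ℚ) / a|, ?_⟩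
    rw [h5]
    push_cast
    rfl
  have hb0 : b = 0 := by
    rw [ha0] at h2
    have h3 : b ^ 2 = 0 := by rw [← h2]; ring
    exact pow_eq_zero_iff two_ne_zero |>.1 h3
  have hR0 : R = 0 := by
    rw [hR2, ha0, hb0]
    simp
  rw [hR0, zero_add] at hR
  rw [← hR, map_mul, hev (-δ) (by rw [neg_sq, hδ]), zero_mul]

private theorem integral_of (l : ℕ) [Fact l.Prime] {I : Type} [Fintype I] [DecidableEq I]
    {M : Matrix I I ℚ_[l]} (hM : Sm (‖(l : ℚ_[l])‖ ^ 2) (M - 1))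
    {δ : AlgebraicClosure ℚ_[l]} (h1 : aeval δ M.charpoly = 0) :
    IsIntegral ℤ_[l] ((δ - 1) / (l : AlgebraicClosure ℚ_[l]) ^ 2) := by
  have hl0 : (l : ℚ_[l]) ≠ 0 := by
    exact_mod_cast (Fact.out : l.Prime).ne_zero
  have hl0' : (l : AlgebraicClosure ℚ_[l]) ≠ 0 := by
    exact_mod_cast (Fact.out : l.Prime).ne_zero
  have hX : ∀ i j, ‖(M - 1) i j / (l : ℚ_[l]) ^ 2‖ ≤ 1 := by
    intro i j
    rw [norm_div, norm_pow]
    have h3 : 0 < ‖(l : ℚ_[l])‖ ^ 2 := by positivity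
    rw [div_le_one h3]
    exact hM i j
  let X' : Matrix I I ℤ_[l] := fun i j => ⟨(M - 1) i j / (l : ℚ_[l]) ^ 2, hX i j⟩
  have hXM : X'.map (algebraMap ℤ_[l] (AlgebraicClosure ℚ_[l])) =
      ((l : AlgebraicClosure ℚ_[l]) ^ 2)⁻¹ •
        (M.map (algebraMap ℚ_[l] (AlgebraicClosure ℚ_[l])) - 1) := by
    ext i j
    rw [Matrix.map_apply, IsScalarTower.algebraMap_apply ℤ_[l] ℚ_[l] (AlgebraicClosure ℚ_[l])]
    change algebraMap ℚ_[l] (AlgebraicClosure ℚ_[l]) ((M - 1) i j / (l : ℚ_[l]) ^ 2) = _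
    rw [map_div₀, map_pow, map_natCast, Matrix.smul_apply, Matrix.sub_apply, Matrix.sub_apply,
      map_sub, Matrix.map_apply, smul_eq_mul, div_eq_inv_mul]
    congr 2
    by_cases hij : i = j
    · subst hij
      rw [Matrix.one_apply_eq, Matrix.one_apply_eq, map_one]
    · rw [Matrix.one_apply_ne hij, Matrix.one_apply_ne hij, map_zero]
  refine ⟨X'.charpoly, X'.charpoly_monic, ?_⟩
  rw [← Polynomial.eval_map, ← Matrix.charpoly_map, hXM, Matrix.eval_charpoly]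
  have h2 : eval δ (M.map (algebraMap ℚ_[l] (AlgebraicClosure ℚ_[l]))).charpoly = 0 := by
    rw [Matrix.charpoly_map, Polynomial.eval_map]
    exact h1
  rw [Matrix.eval_charpoly] at h2
  have h3 : scalar I ((δ - 1) / (l : AlgebraicClosure ℚ_[l]) ^ 2) -
      ((l : AlgebraicClosure ℚ_[l]) ^ 2)⁻¹ •
        (M.map (algebraMap ℚ_[l] (AlgebraicClosure ℚ_[l])) - 1) =
      ((l : AlgebraicClosure ℚ_[l]) ^ 2)⁻¹ •
        (scalar I δ - M.map (algebraMap ℚ_[l] (AlgebraicClosure ℚ_[l]))) := by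
    ext i j
    simp only [Matrix.scalar_apply, Matrix.sub_apply, Matrix.smul_apply, smul_eq_mul,
      Matrix.diagonal_apply, Matrix.one_apply]
    split_ifs <;> ring
  rw [h3, Matrix.det_smul, h2, mul_zero]

theorem not_near (l : ℕ) [Fact l.Prime] {I : Type} [Fintype I] [DecidableEq I]
    {M : Matrix I I ℚ_[l]} (hM : Sm (‖(l : ℚ_[l])‖ ^ 2) (M - 1))
    {δ : AlgebraicClosure ℚ_[l]} (h1 : aeval δ M.charpoly = 0)
    (h2 : aeval (-δ) M.charpoly = 0) : False := by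
  have h3 := (integral_of l hM h1).add (integral_of l hM h2)
  have h4 : (δ - 1) / (l : AlgebraicClosure ℚ_[l]) ^ 2 +
      (-δ - 1) / (l : AlgebraicClosure ℚ_[l]) ^ 2 =
      algebraMap ℚ_[l] (AlgebraicClosure ℚ_[l]) (-2 / (l : ℚ_[l]) ^ 2) := by
    rw [map_div₀, map_pow, map_natCast, map_neg, map_ofNat]
    ring
  rw [h4, isIntegral_algebraMap_iff (algebraMap ℚ_[l] (AlgebraicClosure ℚ_[l])).injective] at h3
  obtain ⟨z, hz⟩ := IsIntegrallyClosed.isIntegral_iff.1 h3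
  have hz1 : ‖(-2 / (l : ℚ_[l]) ^ 2 : ℚ_[l])‖ ≤ 1 := by
    rw [← hz]
    exact z.norm_le_one
  have hl : l.Prime := Fact.out
  have hl2 : (2 : ℝ) ≤ l := by exact_mod_cast hl.two_le
  have hln : ‖(l : ℚ_[l])‖ = (l : ℝ)⁻¹ := Padic.norm_p
  rw [norm_div, norm_neg, norm_pow, hln, div_le_one (by positivity)] at hz1
  by_cases h5 : l = 2
  · subst h5
    have h6 : ‖(2 : ℚ_[2])‖ = (2 : ℝ)⁻¹ := by
      have h7 := hln
      norm_num at h7 ⊢
      exact h7
    rw [h6] at hz1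
    norm_num at hz1
  · have h6 : ¬ ‖((2 : ℤ) : ℚ_[l])‖ < 1 := by
      rw [Padic.norm_intCast_lt_one_iff]
      intro h7
      have h8 : l ∣ 2 := by exact_mod_cast h7
      have h9 := Nat.le_of_dvd (by norm_num) h8
      have := hl.two_le
      omega
    have h7 : (1 : ℝ) ≤ ‖(2 : ℚ_[l])‖ := by
      push_cast at h6
      exact not_lt.1 h6
    have h8 : ((l : ℝ)⁻¹) ^ 2 < 1 := by
      have h9 : (l : ℝ)⁻¹ ≤ 2⁻¹ := by
        apply inv_anti₀ (by norm_num) hl2
      have h10 : (0 : ℝ) ≤ (l : ℝ)⁻¹ := by positivity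
      nlinarith
    linarith

end Pool.Agent.Lib.MP_640417_ag.T3
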