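import Pool.Agent.Lib.MP_640417_ag.T3.DetO
import Pool.Agent.Lib.MP_640417_ag.Frob.BaseRep

/-!
# MP_640417_ag, T3, module OpenD (90 lines): the determinant on an orthogonal component is a power of the character

`open_det` : `Δ γ = det (e T γ + (1 - e))` satisfies `Δ ^ 2 = ((χ γ)⁻¹) ^ (2 m)` by `det_sq`, so `Δ = ± ((χ γ)⁻¹) ^ m`. It is enough to show that `{γ | Δ γ ≠ -((χ γ)⁻¹) ^ m}` is open: this set
is `{γ | (χ γ) ^ m * Δ γ = 1}`, the kernel of a homomorphism (`bai_mul`, `bai_one`), so an open subgroup. Choose `x, y` over `F` with `ρ.form x y = 1` (the form is nondegenerate and `V ≠ 0`;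
if `V = 0` everything is trivial). `(χ γ)⁻¹ = form (T γ x) (T γ y)` is a polynomial in the matrix entries of `T γ`, and `Δ γ` is a polynomial in these entries by
`bai_poly` (`Dfr/Baire.lean`). Conclude with `open_ne` as in the proof of `bai_open`.
-/

set_option autoImplicit false

namespace Pool.Agent.Lib.MP_640417_ag.T3

open Module TensorProduct Pool.Agent.Lib.MP_640417_ag Pool.Agent.Lib.MP_640417_ag.Frob
  Pool.Agent.Lib.MP_640417_ag.Four Pool.Agent.Lib.MP_640417_ag.Ty
  Pool.Agent.Lib.MP_640417_ag.Lef Pool.Agent.Lib.MP_640417_ag.Dfr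
  Pool.Agent.Lib.MP_640417_ag.Dfr.RelM

section aux

variable {F : Type} [NontriviallyNormedField F] {V : Type}
  [AddCommGroup V] [Module F V] {Γ : Type} [Group Γ] [TopologicalSpace Γ]

/-- the action over `K` -/
private noncomputable def tK (ρ : H1Rep Γ F V) :
    Γ →* Module.End (AlgebraicClosure F) (AlgebraicClosure F ⊗[F] V) :=
  ((Module.End.baseChangeHom F (AlgebraicClosure F) V : Module.End F V →ₐ[F]
    Module.End (AlgebraicClosure F) (AlgebraicClosure F ⊗[F] V)) :
      Module.End F V →* Module.End (AlgebraicClosure F) (AlgebraicClosure F ⊗[F] V)).comp ρ.T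

/-- the character over `K` -/
private noncomputable def cK (ρ : H1Rep Γ F V) : Γ →* (AlgebraicClosure F)ˣ :=
  (Units.map (algebraMap F (AlgebraicClosure F) : F →* AlgebraicClosure F)).comp ρ.χ

private theorem cK_inv (ρ : H1Rep Γ F V) (γ : Γ) : ((cK ρ γ)⁻¹ : (AlgebraicClosure F)ˣ).val =
    algebraMap F (AlgebraicClosure F) ((ρ.χ γ)⁻¹ : Fˣ).val := by
  simp only [cK, MonoidHom.comp_apply, ← map_inv, Units.coe_map, MonoidHom.coe_coe]

private theorem fK_eq [FiniteDimensional F V] (ρ : H1Rep Γ F V) (γ : Γ) (x y : AlgebraicClosure F ⊗[F] V) :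
    ρ.form.baseChange (AlgebraicClosure F) (tK ρ γ x) (tK ρ γ y) =
      ((cK ρ γ)⁻¹ : (AlgebraicClosure F)ˣ).val *
        ρ.form.baseChange (AlgebraicClosure F) x y := by
  rw [cK_inv]
  exact equivariant_baseChange (AlgebraicClosure F) ρ.form (ρ.T γ) _ (ρ.form_equivariant γ) x y

end aux

theorem open_det {F : Type} [NontriviallyNormedField F] [CharZero F] {V : Type}
    [AddCommGroup V] [Module F V] [FiniteDimensional F V] {Γ : Type} [Group Γ]
    [TopologicalSpace Γ] [IsTopologicalGroup Γ] (ρ : H1Rep Γ F V)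
    (hfull : ∀ c, CommF ρ c → ∀ γ, c * ρ.T γ = ρ.T γ * c)
    (hadj : AdjC (ρ.form.baseChange (AlgebraicClosure F)) (comK ρ))
    {c d : Module.End (AlgebraicClosure F) (AlgebraicClosure F ⊗[F] V)}
    (hc : SkewOne (ρ.form.baseChange (AlgebraicClosure F)) (comK ρ) c) (hd : d ∈ comK ρ)
    (hcd : c * d * c = c) {m : ℕ}
    (hm : finrank (AlgebraicClosure F) (LinearMap.range c) = 2 * m) :
    ∃ U : OpenSubgroup Γ, ∀ γ ∈ U,
      algebraMap F (AlgebraicClosure F) (ρ.χ γ : F) ^ m *
        LinearMap.det ((c * d) * (ρ.T γ).baseChange (AlgebraicClosure F) + (1 - c * d)) = 1 := by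
  classical
  have hcomm : ∀ a ∈ comK ρ, ∀ γ, a * tK ρ γ = tK ρ γ * a := fun a ha γ => comK_full ρ hfull ha γ
  have he : (c * d) * (c * d) = c * d := by rw [← mul_assoc, hcd]
  have hsq : ∀ γ, LinearMap.det ((c * d) * tK ρ γ + (1 - c * d)) ^ 2 =
      (((cK ρ γ)⁻¹ : (AlgebraicClosure F)ˣ).val) ^ (2 * m) := by
    intro γ
    rw [← hm]
    exact det_sq (alt_baseChange _ ρ.form ρ.form_alt)
      (nondeg_baseChange _ ρ.form ρ.form_alt ρ.form_nondeg) hadj (tK ρ) (cK ρ) (fK_eq ρ) hcomm
      hc hd hcd γ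
  obtain ⟨D, hD⟩ : ∃ D : Γ → AlgebraicClosure F, ∀ γ, D γ = ((cK ρ γ : (AlgebraicClosure F)ˣ) :
      AlgebraicClosure F) ^ m * LinearMap.det ((c * d) * tK ρ γ + (1 - c * d)) := ⟨_, fun _ => rfl⟩
  have hDmul : ∀ γ δ, D (γ * δ) = D γ * D δ := by
    intro γ δ
    rw [hD, hD, hD, map_mul, map_mul, Units.val_mul, mul_pow,
      bai_mul he (hcomm _ ((comK ρ).mul_mem hc.mem hd) γ)]
    ring
  have hDone : D 1 = 1 := by
    rw [hD, map_one, map_one, Units.val_one, one_pow, one_mul, bai_one]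
  have hDsq : ∀ γ, D γ ^ 2 = 1 := by
    intro γ
    rw [hD, mul_pow, hsq, ← pow_mul, mul_comm m 2, ← mul_pow, Units.mul_inv, one_pow]
  have hD2 : ∀ γ, D γ = 1 ↔ D γ ≠ -1 := by
    intro γ
    rcases sq_eq_sq_iff_eq_or_eq_neg.1 ((hDsq γ).trans (one_pow 2).symm) with h | h
    · rw [h]
      refine ⟨fun _ h1 => ?_, fun _ => rfl⟩
      have h2 : (2 : AlgebraicClosure F) = 0 := by linear_combination h1
      exact two_ne_zero h2
    · rw [h]
      refine ⟨fun h1 => ?_, fun h1 => absurd rfl h1⟩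
      have h2 : (2 : AlgebraicClosure F) = 0 := by linear_combination -h1
      exact absurd h2 two_ne_zero
  -- the character is continuous
  have hVn : ∃ x : V, x ≠ 0 := by
    by_contra h
    push Not at h
    apply hc.ne
    refine LinearMap.ext fun z => ?_
    have hz : z = 0 := by
      induction z using TensorProduct.induction_on with
      | zero => rfl
      | tmul a v => rw [h v, TensorProduct.tmul_zero]
      | add a b ha hb => rw [ha, hb, add_zero]
    rw [hz, map_zero, map_zero]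
  obtain ⟨x, hx⟩ := hVn
  obtain ⟨y, hy⟩ : ∃ y, ρ.form x y ≠ 0 := by
    by_contra h
    push Not at h
    exact hx (ρ.form_nondeg x h)
  let b := Module.finBasis F V
  have hχ : Continuous fun γ => ((ρ.χ γ)⁻¹ : Fˣ).val := by
    have h1 : (fun γ => ((ρ.χ γ)⁻¹ : Fˣ).val) =
        fun γ => (ρ.form x y)⁻¹ * ∑ i, b.coord i (ρ.T γ x) * ρ.form (b i) (ρ.T γ y) := by
      funext γ
      have h2 := ρ.form_equivariant γ x y
      have h3 : ρ.form (ρ.T γ x) (ρ.T γ y) =
          ∑ i, b.coord i (ρ.T γ x) * ρ.form (b i) (ρ.T γ y) := by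
        conv_lhs => rw [← b.sum_repr (ρ.T γ x)]
        rw [map_sum, LinearMap.sum_apply]
        refine Finset.sum_congr rfl fun i _ => ?_
        rw [map_smul, LinearMap.smul_apply, smul_eq_mul]
        rfl
      rw [← h3, h2]
      field_simp
    rw [h1]
    refine continuous_const.mul (continuous_finsetSum _ fun i _ => ?_)
    exact (ρ.continuous_coeff _ _).mul (ρ.continuous_coeff (ρ.form (b i)) _)
  obtain ⟨P, hP⟩ := bai_poly (K := AlgebraicClosure F) b (c * d)
  let I := Fin (finrank F V) × Fin (finrank F V)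
  let z : Γ → Option I → F := fun γ o => o.elim (((ρ.χ γ)⁻¹ : Fˣ).val)
    fun i => LinearMap.toMatrix b b (ρ.T γ) i.1 i.2
  have hz : Continuous z := by
    refine continuous_pi fun o => ?_
    cases o with
    | none => exact hχ
    | some i =>
      have h2 : (fun γ : Γ => z γ (some i)) = fun γ : Γ => b.coord i.1 (ρ.T γ (b i.2)) := by
        funext γ
        change LinearMap.toMatrix b b (ρ.T γ) i.1 i.2 = _
        rw [LinearMap.toMatrix_apply]
        rfl
      rw [h2]
      exact ρ.continuous_coeff _ _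
  have hopen : IsOpen {γ | D γ = 1} := by
    have h1 : {γ | D γ = 1} = z ⁻¹' {y : Option I → F |
        MvPolynomial.eval (fun i => algebraMap F (AlgebraicClosure F) (y i))
          (MvPolynomial.rename some P + MvPolynomial.X none ^ m) ≠ 0} := by
      ext γ
      rw [Set.mem_preimage, Set.mem_ofPred_eq, Set.mem_ofPred_eq, hD2, map_add, map_pow,
        MvPolynomial.eval_X, MvPolynomial.eval_rename]
      have h2 : MvPolynomial.eval ((fun i => algebraMap F (AlgebraicClosure F) (z γ i)) ∘ some) P =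
          LinearMap.det ((c * d) * tK ρ γ + (1 - c * d)) := (hP (ρ.T γ)).symm
      have h3 : algebraMap F (AlgebraicClosure F) (z γ none) =
          ((cK ρ γ)⁻¹ : (AlgebraicClosure F)ˣ).val := (cK_inv ρ γ).symm
      rw [h2, h3, not_iff_not, hD]
      have h4 : (((cK ρ γ : (AlgebraicClosure F)ˣ) : AlgebraicClosure F)) ^ m *
          (((cK ρ γ)⁻¹ : (AlgebraicClosure F)ˣ).val) ^ m = 1 := by
        rw [← mul_pow, Units.mul_inv, one_pow]
      constructor
      · intro h
        linear_combination (((cK ρ γ)⁻¹ : (AlgebraicClosure F)ˣ).val) ^ m * h -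
          LinearMap.det ((c * d) * tK ρ γ + (1 - c * d)) * h4
      · intro h
        linear_combination (((cK ρ γ : (AlgebraicClosure F)ˣ) : AlgebraicClosure F)) ^ m * h - h4
    rw [h1]
    exact (open_ne _).preimage hz
  refine ⟨⟨⟨⟨⟨{γ | D γ = 1}, ?_⟩, hDone⟩, ?_⟩, hopen⟩, ?_⟩
  · intro γ δ hγ hδ
    change D (γ * δ) = 1
    rw [hDmul, hγ, hδ, one_mul]
  · intro γ hγ
    change D γ⁻¹ = 1
    have h1 := hDmul γ γ⁻¹
    rw [mul_inv_cancel, hDone] at h1
    have h2 : D γ = 1 := hγ
    rw [h2, one_mul] at h1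
    exact h1.symm
  · intro γ hγ
    have h1 : D γ = 1 := hγ
    rw [hD] at h1
    exact h1

end Pool.Agent.Lib.MP_640417_ag.T3
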