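import Pool.Agent.Lib.MP_640417_ag.T3.Kill
import Pool.Agent.Lib.MP_640417_ag.T3.OpenD
import Pool.Agent.Lib.MP_640417_ag.Dfr.HasSys
import Pool.Agent.Lib.MP_640417_ag.Dfr.Base
import Pool.Agent.Lib.MP_640417_ag.Lef.Main

/-!
# MP_640417_ag, T3: a component of type III gives an exotic class
-/

set_option autoImplicit false

namespace Pool.Agent.Lib.MP_640417_ag.T3

open Module TensorProduct Pool.Agent.Lib.MP_640417_ag Pool.Agent.Lib.MP_640417_ag.Frob
  Pool.Agent.Lib.MP_640417_ag.Four Pool.Agent.Lib.MP_640417_ag.Ty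
  Pool.Agent.Lib.MP_640417_ag.Lef Pool.Agent.Lib.MP_640417_ag.Dfr
  Pool.Agent.Lib.MP_640417_ag.Dfr.RelM

/-- The base change of the divisor algebra. -/
theorem be_div {F F' : Type} [Field F] [Field F'] [Algebra F F'] {V : Type}
    [AddCommGroup V] [Module F V] [FiniteDimensional F V] {Γ : Type} [Group Γ]
    [TopologicalSpace Γ] (T : Γ → V →ₗ[F] V) (χ : Γ →* Fˣ) (n : ℕ)
    {x : ExteriorAlgebra F (Fin n → V)}
    (hx : x ∈ divisorAlg (fun γ => (T γ).compLeft (Fin n)) χ) :
    be F' n x ∈ divisorAlg (fun γ => ((T γ).baseChange F').compLeft (Fin n))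
      ((Units.map (algebraMap F F' : F →* F')).comp χ) := by
  refine Algebra.adjoin_induction (p := fun x _ => be F' n x ∈
    divisorAlg (fun γ => ((T γ).baseChange F').compLeft (Fin n))
      ((Units.map (algebraMap F F' : F →* F')).comp χ)) ?_ ?_ ?_ ?_ hx
  · intro y hy
    exact Algebra.subset_adjoin (tate_be T χ n 1 hy)
  · intro r
    rw [AlgHom.commutes, IsScalarTower.algebraMap_apply F F']
    exact Subalgebra.algebraMap_mem _ _
  · intro y z _ _ hy hz
    rw [map_add]
    exact Subalgebra.add_mem _ hy hz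
  · intro y z _ _ hy hz
    rw [map_mul]
    exact Subalgebra.mul_mem _ hy hz

theorem exotic_of_skewOne {F : Type} [NontriviallyNormedField F] [CharZero F] {V : Type}
    [AddCommGroup V] [Module F V] [FiniteDimensional F V] {Γ : Type} [Group Γ]
    [TopologicalSpace Γ] [IsTopologicalGroup Γ] (ρ : H1Rep Γ F V) (hss : Semisimple ρ)
    (hfull : ∀ c, CommF ρ c → ∀ γ, c * ρ.T γ = ρ.T γ * c)
    {c : Module.End (AlgebraicClosure F) (AlgebraicClosure F ⊗[F] V)}
    (hc : SkewOne (ρ.form.baseChange (AlgebraicClosure F)) (comK ρ) c) {m : ℕ}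
    (hm : finrank (AlgebraicClosure F) (LinearMap.range c) = 2 * m) : ¬ NoExotic ρ := by
  intro hno
  have hchar : CharZero (AlgebraicClosure F) :=
    charZero_of_injective_algebraMap (algebraMap F (AlgebraicClosure F)).injective
  have haltK := alt_baseChange (AlgebraicClosure F) ρ.form ρ.form_alt
  have hndK : ∀ x, (∀ y, ρ.form.baseChange (AlgebraicClosure F) x y = 0) → x = 0 := fun x hx =>
    nondeg_baseChange (AlgebraicClosure F) ρ.form ρ.form_alt ρ.form_nondeg x hx
  have hadj := adj_comK ρ hfull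
  obtain ⟨d, hd, hcd⟩ := reg_comK ρ hss hfull c hc.mem
  have hee : (c * d) * (c * d) = c * d := by rw [← mul_assoc, hcd]
  have hre : LinearMap.range (c * d) = LinearMap.range c := by
    apply le_antisymm
    · rintro _ ⟨x, rfl⟩
      exact ⟨d x, rfl⟩
    · rintro _ ⟨x, rfl⟩
      exact ⟨c x, by rw [← Module.End.mul_apply, hcd]⟩
  have hm0 : 0 < m := by
    rcases Nat.eq_zero_or_pos m with h | h
    · exfalso
      rw [h, mul_zero] at hm
      exact hc.ne (LinearMap.range_eq_bot.mp (Submodule.finrank_eq_zero.mp hm))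
    · exact h
  have heT : ∀ γ, (c * d) * (ρ.T γ).baseChange (AlgebraicClosure F) =
      (ρ.T γ).baseChange (AlgebraicClosure F) * (c * d) := fun γ =>
    comK_full ρ hfull ((comK ρ).mul_mem hc.mem hd) γ
  obtain ⟨y, hy0, hyd, hymap, -⟩ := exists_top (fun _ : Fin 1 => c * d) (fun _ => hee)
  have hsum : ∑ _t : Fin 1, finrank (AlgebraicClosure F) (LinearMap.range (c * d)) = 2 * m := by
    rw [Fin.sum_univ_one, hre, hm]
  rw [hsum] at hyd
  obtain ⟨U, hU⟩ := open_det ρ hfull hadj hc hd hcd hm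
  have hyT : TateClass (fun γ => ((ρ.T γ).baseChange (AlgebraicClosure F)).compLeft (Fin 1))
      ((Units.map (algebraMap F (AlgebraicClosure F) : F →* AlgebraicClosure F)).comp ρ.χ)
      m y := by
    refine ⟨hyd, U, fun γ hγ => ?_⟩
    rw [hymap _ (fun _ => heT γ), Fin.prod_univ_one, smul_smul]
    have h1 := hU γ hγ
    have h2 : ((((Units.map (algebraMap F (AlgebraicClosure F) : F →* AlgebraicClosure F)).comp
        ρ.χ) γ : (AlgebraicClosure F)ˣ) : AlgebraicClosure F) =
        algebraMap F (AlgebraicClosure F) (ρ.χ γ : F) := rfl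
    rw [h2, h1, one_smul]
  obtain ⟨L, hL, hinj⟩ := exists_op haltK hndK
  have hkill : ∀ x, TateClass (fun γ => (TK ρ γ).compLeft (Fin 1)) (chK ρ) 1 x →
      ExteriorAlgebra.map ((c * d).compLeft (Fin 1)) x = 0 := by
    intro x hx
    obtain ⟨W, hW⟩ := op_tate (TK ρ) (chK ρ) haltK (formK_eq ρ) hL hx
    exact kill_two haltK hndK hadj hc hd hL hinj hx.1 ⟨W, hW⟩
  have hspan := tate_span (F' := AlgebraicClosure F) (fun γ => ρ.T γ) ρ.χ 1 m y hyT
  have hzero : ExteriorAlgebra.map ((c * d).compLeft (Fin 1)) y = 0 := by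
    clear hy0 hyd hymap hyT
    induction hspan using Submodule.span_induction with
    | mem y hy =>
      obtain ⟨x, hx, rfl⟩ := hy
      have h2 : x ∈ divisorAlg (fun γ => (ρ.T γ).compLeft (Fin 1)) ρ.χ := by
        by_contra h3
        exact hno 1 m x ⟨hx, h3⟩
      exact kill_div (TK ρ) (chK ρ) (c * d) hkill (k := 2 * m) (by omega)
        (tate_be (fun γ => ρ.T γ) ρ.χ 1 m hx).1 (be_div (fun γ => ρ.T γ) ρ.χ 1 h2)
    | zero => rw [map_zero]
    | add x z _ _ hx hz => rw [map_add, hx, hz, add_zero]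
    | smul a x _ hx => rw [map_smul, hx, smul_zero]
  have h9 : (c * d) * (c * d) + (1 - c * d) = 1 := by
    rw [hee]
    abel
  rw [hymap _ (fun _ => rfl), Fin.prod_univ_one, h9, map_one, one_smul] at hzero
  exact hy0 hzero

end Pool.Agent.Lib.MP_640417_ag.T3
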