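import Pool.Agent.Lib.MP_640417_ag.T3.Op

/-!
# MP_640417_ag, T3, module Kill (80 lines): the projection kills the Tate classes of codimension one

Let `e = c * d`, `c'= -c` (`hc.skew`), `d'` the adjoint of `d` (in `C` by `AdjC`), `e' = d' * (-c)` the adjoint of `e`. `L (Λ(e) x) = e * L x * e' = -(c * (d * L x * d') * c)`
by `op_map`, and `d * L x * d' ∈ C`, so it is `-t • c` for some `t` (`hc.one`). `Λ(e) x ∈ ⋀²` (`ExteriorAlgebra.map` preserves the degree), so by `op_self` it is self-adjoint: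
`Adj form (-t • c) (-t • c)`; but `Adj form (-t • c) (t • c)` since `c` is skew; by `Adj.unique` `-t • c = t • c`, so `t = 0` (`c ≠ 0`, characteristic zero).
So `L (Λ(e) x) = 0` and `Λ(e) x = 0` by the injectivity.
-/

set_option autoImplicit false

namespace Pool.Agent.Lib.MP_640417_ag.T3

open Module Pool.Agent.Lib.MP_640417_ag Pool.Agent.Lib.MP_640417_ag.Lef
  Pool.Agent.Lib.MP_640417_ag.Four Pool.Agent.Lib.MP_640417_ag.Dfr
  Pool.Agent.Lib.MP_640417_ag.Dfr.RelM

variable {K V : Type} [Field K] [CharZero K] [AddCommGroup V]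
    [Module K V] [FiniteDimensional K V] {form : LinearMap.BilinForm K V}
    {C : Subalgebra K (Module.End K V)}

/-- induction over products of two vectors -/
private theorem two_ind' {K W : Type} [Field K] [AddCommGroup W] [Module K W]
    {P : ExteriorAlgebra K W → Prop}
    (hm : ∀ v w : W, P (ExteriorAlgebra.ι K v * ExteriorAlgebra.ι K w))
    (ha : ∀ x y, P x → P y → P (x + y)) {x : ExteriorAlgebra K W} (hx : x ∈ ⋀[K]^2 W) : P x := by
  have hx' : x ∈ LinearMap.range (ExteriorAlgebra.ι K (M := W)) *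
      LinearMap.range (ExteriorAlgebra.ι K (M := W)) := by
    rw [← pow_two]
    exact hx
  refine Submodule.mul_induction_on hx' ?_ ha
  rintro _ ⟨v, rfl⟩ _ ⟨w, rfl⟩
  exact hm v w

private theorem map_two {K W : Type} [Field K] [AddCommGroup W] [Module K W] (g : W →ₗ[K] W)
    {x : ExteriorAlgebra K W} (hx : x ∈ ⋀[K]^2 W) : ExteriorAlgebra.map g x ∈ ⋀[K]^2 W := by
  refine two_ind' (P := fun x => ExteriorAlgebra.map g x ∈ ⋀[K]^2 W) ?_ ?_ hx
  · intro v w
    rw [map_mul, ExteriorAlgebra.map_apply_ι, ExteriorAlgebra.map_apply_ι]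
    change _ ∈ LinearMap.range (ExteriorAlgebra.ι K (M := W)) ^ 2
    rw [pow_two]
    exact Submodule.mul_mem_mul ⟨_, rfl⟩ ⟨_, rfl⟩
  · intro x y hx hy
    rw [map_add]
    exact Submodule.add_mem _ hx hy

theorem kill_two (halt : ∀ x, form x x = 0) (hnd : ∀ x, (∀ y, form x y = 0) → x = 0)
    (hadj : AdjC form C) {c d : Module.End K V} (hc : SkewOne form C c) (hd : d ∈ C)
    {L : ExteriorAlgebra K (Fin 1 → V) →ₗ[K] Module.End K V} (hL : IsOp form L)
    (hinj : ∀ x ∈ ⋀[K]^2 (Fin 1 → V), L x = 0 → x = 0)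
    {x : ExteriorAlgebra K (Fin 1 → V)} (hx : x ∈ ⋀[K]^2 (Fin 1 → V)) (hLx : L x ∈ C) :
    ExteriorAlgebra.map ((c * d).compLeft (Fin 1)) x = 0 := by
  obtain ⟨d', hd', hdd⟩ := hadj d hd
  replace hdd : Adj form d d' := hdd
  have hcc : Adj form c (-c) := fun x y => by
    rw [LinearMap.neg_apply, map_neg]
    exact eq_neg_of_add_eq_zero_left (hc.skew x y)
  have h1 := op_map halt hL (hcc.mul hdd) hx
  obtain ⟨t, ht⟩ := hc.one (d * L x * d') (C.mul_mem (C.mul_mem hd hLx) hd')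
  have h2 : L (ExteriorAlgebra.map ((c * d).compLeft (Fin 1)) x) = -(t • c) := by
    rw [h1, ← ht, mul_neg, mul_neg]
    simp only [mul_assoc]
  have h3 := op_self halt hL (map_two ((c * d).compLeft (Fin 1)) hx)
  rw [h2] at h3
  have h4 : Adj form (-(t • c)) (t • c) := fun x y => by
    have h5 := (hcc.smul t) x y
    rw [LinearMap.neg_apply, map_neg, LinearMap.neg_apply, h5, smul_neg, LinearMap.neg_apply,
      map_neg, neg_neg]
  have h5 := Adj.unique halt hnd h3 h4
  have h6 : t • c = 0 := by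
    have h7 : (2 : K) • (t • c) = 0 := by
      rw [two_smul]
      nth_rewrite 1 [← h5]
      exact neg_add_cancel _
    exact (smul_eq_zero.1 h7).resolve_left two_ne_zero
  apply hinj _ (map_two ((c * d).compLeft (Fin 1)) hx)
  rw [h2, h6, neg_zero]

/-- The operator of a Tate class of codimension one commutes with an open subgroup. -/
theorem op_tate {Γ : Type} [Group Γ] [TopologicalSpace Γ] (T : Γ →* Module.End K V)
    (χ : Γ →* Kˣ) (halt : ∀ x, form x x = 0)
    (heq : ∀ γ x y, form (T γ x) (T γ y) = ((χ γ)⁻¹ : Kˣ).val * form x y)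
    {L : ExteriorAlgebra K (Fin 1 → V) →ₗ[K] Module.End K V} (hL : IsOp form L)
    {x : ExteriorAlgebra K (Fin 1 → V)}
    (hx : TateClass (fun γ => (T γ).compLeft (Fin 1)) χ 1 x) :
    ∃ U : OpenSubgroup Γ, ∀ γ ∈ U, L x * T γ = T γ * L x := by
  obtain ⟨hx2, U, hU⟩ := hx
  refine ⟨U, fun γ hγ => ?_⟩
  have h1 := hU γ hγ
  rw [pow_one] at h1
  have hinv : T γ * T γ⁻¹ = 1 := by rw [← map_mul, mul_inv_cancel, map_one]
  have hinv' : T γ⁻¹ * T γ = 1 := by rw [← map_mul, inv_mul_cancel, map_one]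
  have hadj : Adj form (T γ) (((χ γ)⁻¹ : Kˣ).val • T γ⁻¹) := fun u v => by
    rw [LinearMap.smul_apply, map_smul, smul_eq_mul, ← heq γ]
    congr 1
    exact (LinearMap.congr_fun hinv v).symm
  have h2 := op_map halt hL hadj (x := x) hx2
  have h3 : L x = T γ * L x * T γ⁻¹ := by
    calc L x = L ((χ γ : K) • ExteriorAlgebra.map ((T γ).compLeft (Fin 1)) x) := by rw [h1]
      _ = (χ γ : K) • (T γ * L x * (((χ γ)⁻¹ : Kˣ).val • T γ⁻¹)) := by rw [map_smul, h2]
      _ = T γ * L x * T γ⁻¹ := by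
        rw [mul_smul_comm, smul_smul, Units.mul_inv, one_smul]
  nth_rewrite 1 [h3]
  rw [mul_assoc, hinv', mul_one]

private theorem inv_map {K W : Type} [Field K] [AddCommGroup W] [Module K W] (g : W →ₗ[K] W)
    (j : ℕ) {y : ExteriorAlgebra K W} (hy : y ∈ ⋀[K]^(j + 1) W) :
    ExteriorAlgebra.algebraMapInv (ExteriorAlgebra.map g y) = 0 := by
  have hy' : y ∈ LinearMap.range (ExteriorAlgebra.ι K (M := W)) ^ j *
      LinearMap.range (ExteriorAlgebra.ι K (M := W)) := by
    rw [← pow_succ]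
    exact hy
  refine Submodule.mul_induction_on hy' ?_ ?_
  · rintro a _ _ ⟨v, rfl⟩
    rw [map_mul, map_mul, ExteriorAlgebra.map_apply_ι]
    have h : ExteriorAlgebra.algebraMapInv (ExteriorAlgebra.ι K (g v)) = 0 := by
      simp [ExteriorAlgebra.algebraMapInv]
    rw [h, mul_zero]
  · intro x y hx hy
    rw [map_add, map_add, hx, hy, add_zero]

/-- An algebra homomorphism which kills the Tate classes of codimension one kills all elements of positive degree
of the algebra which they generate. -/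
theorem kill_div {Γ : Type} [Group Γ] [TopologicalSpace Γ] (T : Γ →* Module.End K V)
    (χ : Γ →* Kˣ) (e : Module.End K V)
    (h : ∀ x, TateClass (fun γ => (T γ).compLeft (Fin 1)) χ 1 x →
      ExteriorAlgebra.map (e.compLeft (Fin 1)) x = 0)
    {k : ℕ} (hk : 0 < k) {y : ExteriorAlgebra K (Fin 1 → V)} (hy : y ∈ ⋀[K]^k (Fin 1 → V))
    (hd : y ∈ divisorAlg (fun γ => (T γ).compLeft (Fin 1)) χ) :
    ExteriorAlgebra.map (e.compLeft (Fin 1)) y = 0 := by
  have h1 : ∃ r : K, ExteriorAlgebra.map (e.compLeft (Fin 1)) y =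
      algebraMap K (ExteriorAlgebra K (Fin 1 → V)) r := by
    refine Algebra.adjoin_induction (p := fun y _ => ∃ r : K,
      ExteriorAlgebra.map (e.compLeft (Fin 1)) y =
        algebraMap K (ExteriorAlgebra K (Fin 1 → V)) r) ?_ ?_ ?_ ?_ hd
    · intro x hx
      exact ⟨0, by rw [h x hx, map_zero]⟩
    · intro r
      exact ⟨r, AlgHom.commutes _ r⟩
    · rintro a b _ _ ⟨r, hr⟩ ⟨s, hs⟩
      exact ⟨r + s, by rw [map_add, hr, hs, map_add]⟩
    · rintro a b _ _ ⟨r, hr⟩ ⟨s, hs⟩
      exact ⟨r * s, by rw [map_mul, hr, hs, map_mul]⟩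
  obtain ⟨r, hr⟩ := h1
  obtain ⟨j, rfl⟩ : ∃ j, k = j + 1 := ⟨k - 1, by omega⟩
  have h2 := inv_map (e.compLeft (Fin 1)) j hy
  rw [hr, ExteriorAlgebra.algebraMap_leftInverse] at h2
  rw [hr, h2, map_zero]

end Pool.Agent.Lib.MP_640417_ag.T3
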