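import Pool.Agent.Lib.MP_640417_ag.T3.Defs
import Mathlib.LinearAlgebra.Eigenspace.Triangularizable

/-!
# MP_640417_ag, T3, module MinE (80 lines): minimal idempotents

Choose an idempotent `e ∈ C`, `e ≠ 0`, `q * e = e`, `e * q = e` with minimal `finrank (range e)` (`q` is one such; `Nat.find` or
`WellFounded.min`). Let `c ∈ C`. The restriction of `e * c * e` to the nonzero space `range e` has an eigenvalue `t`
(`Module.End.exists_eigenvalue`), with an eigenvector `w = e w ≠ 0`, `e c e w = t w`. Let `b = e * c * e - t • e ∈ C`, `b w = 0`, `e b = b = b e`. By `Reg` there is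
`d ∈ C` with `b * d * b = b`. `f = e * d * b` is an idempotent of `C` (`f f = e d b e d b = e d (b d b) = f`; `b e = b`), `f = e f = f e`, so `q f = f = f q`, and
`range f ⊆ range e`, `f w = 0`. If `f` were nonzero, minimality would give `finrank (range f) = finrank (range e)`, so `range f = range e` and (`f e = f`, so
`f` is the identity on `range f = range e ∋ w`) `f w = w ≠ 0`, a contradiction. So `f = 0` and `b = b d b = b e d b = b f = 0` (use `b e = b`).
-/

set_option autoImplicit false

namespace Pool.Agent.Lib.MP_640417_ag.T3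

open Module Pool.Agent.Lib.MP_640417_ag Pool.Agent.Lib.MP_640417_ag.Lef

theorem exists_min {K V : Type} [Field K] [IsAlgClosed K] [AddCommGroup V] [Module K V]
    [FiniteDimensional K V] {C : Subalgebra K (Module.End K V)} (hreg : Reg C)
    {q : Module.End K V} (hq : q ∈ C) (hqq : q * q = q) (hq0 : q ≠ 0) :
    ∃ e, MinIdem C e ∧ q * e = e ∧ e * q = e := by
  classical
  let P : ℕ → Prop := fun n => ∃ e ∈ C, e ≠ 0 ∧ e * e = e ∧ q * e = e ∧ e * q = e ∧
    finrank K (LinearMap.range e) = n
  have hP : ∃ n, P n := ⟨_, q, hq, hq0, hqq, hqq, hqq, rfl⟩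
  obtain ⟨e, heC, he0, hee, hqe, heq, hr⟩ := Nat.find_spec hP
  have hmin : ∀ f ∈ C, f ≠ 0 → f * f = f → q * f = f → f * q = f →
      finrank K (LinearMap.range e) ≤ finrank K (LinearMap.range f) := by
    intro f h1 h2 h3 h4 h5
    rw [hr]
    exact Nat.find_min' hP ⟨f, h1, h2, h3, h4, h5, rfl⟩
  refine ⟨e, ⟨heC, he0, hee, fun c hc => ?_⟩, hqe, heq⟩
  have hstab : ∀ x ∈ LinearMap.range e, (e * c * e) x ∈ LinearMap.range e := fun x _ =>
    ⟨c (e x), rfl⟩
  have hnt : Nontrivial (LinearMap.range e) := by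
    rw [Submodule.nontrivial_iff_ne_bot]
    exact fun h => he0 (LinearMap.range_eq_bot.mp h)
  obtain ⟨t, ht⟩ := Module.End.exists_eigenvalue ((e * c * e).restrict hstab)
  obtain ⟨w, hw⟩ := ht.exists_hasEigenvector
  have hw0 : (w : V) ≠ 0 := fun h => hw.2 (Subtype.ext h)
  have hw1 : (e * c * e) (w : V) = t • (w : V) := by
    have h1 := congrArg Subtype.val hw.apply_eq_smul
    exact h1
  have hew : e (w : V) = w := by
    obtain ⟨x, hx⟩ := w.2
    rw [← hx, ← Module.End.mul_apply, hee]
  obtain ⟨b, hb⟩ : ∃ b, b = e * c * e - t • e := ⟨_, rfl⟩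
  have hbC : b ∈ C := by
    rw [hb]
    exact C.sub_mem (C.mul_mem (C.mul_mem heC hc) heC) (C.smul_mem heC t)
  have hbw : b (w : V) = 0 := by
    rw [hb, LinearMap.sub_apply, hw1, LinearMap.smul_apply, hew, sub_self]
  have heb : e * b = b := by
    rw [hb, mul_sub, mul_smul_comm, hee, ← mul_assoc, ← mul_assoc, hee]
  have hbe : b * e = b := by
    rw [hb, sub_mul, smul_mul_assoc, hee, mul_assoc, hee]
  obtain ⟨d, hd, hbdb⟩ := hreg b hbC
  obtain ⟨f, hf⟩ : ∃ f, f = e * d * b := ⟨_, rfl⟩
  have hfC : f ∈ C := by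
    rw [hf]
    exact C.mul_mem (C.mul_mem heC hd) hbC
  have hff : f * f = f := by
    calc f * f = e * d * ((b * e) * d * b) := by rw [hf]; simp only [mul_assoc]
      _ = f := by rw [hbe, hbdb, ← hf]
  have hef : e * f = f := by rw [hf, ← mul_assoc, ← mul_assoc, hee]
  have hfe : f * e = f := by rw [hf, mul_assoc, hbe]
  have hf0 : f = 0 := by
    by_contra hne
    have h1 := hmin f hfC hne hff (by rw [← hef, ← mul_assoc, hqe])
      (by rw [← hfe, mul_assoc, heq])
    have h2 : LinearMap.range f ≤ LinearMap.range e := by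
      rintro _ ⟨x, rfl⟩
      exact ⟨f x, by rw [← Module.End.mul_apply, hef]⟩
    have h3 := Submodule.eq_of_le_of_finrank_le h2 h1
    have h4 : (w : V) ∈ LinearMap.range f := by
      rw [h3]
      exact w.2
    obtain ⟨x, hx⟩ := h4
    have h5 : f (w : V) = w := by rw [← hx, ← Module.End.mul_apply, hff]
    apply hw0
    rw [← h5, hf, Module.End.mul_apply, hbw, map_zero]
  refine ⟨t, ?_⟩
  have h1 : b = 0 := by
    calc b = b * d * b := hbdb.symm
      _ = (b * e) * d * b := by rw [hbe]
      _ = b * (e * d * b) := by simp only [mul_assoc]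
      _ = 0 := by rw [← hf, hf0, mul_zero]
  rw [hb] at h1
  exact sub_eq_zero.mp h1

end Pool.Agent.Lib.MP_640417_ag.T3
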