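import Pool.Agent.Lib.MP_640417_ag.T3.SelfE

/-!
# MP_640417_ag, T3, module SysE (180 lines): systems of minimal idempotents

* `sysQ_add`: the sum of two systems on `I ⊕ J`: `st = Sum.map st₁ st₂`, `ε = Sum.elim ε₁ ε₂`. For orthogonality: `q₁ * ε₁ j = ε₁ j = ε₁ j * q₁`
  (sum over `k` of `ε₁ k * ε₁ j`), so `ε₁ j * ε₂ k = ε₁ j * q₁ * q₂ * ε₂ k = 0`.
* `sysQ_one`: a self-adjoint minimal idempotent is a system on `Unit`, `sysQ_two`: a pair `e, e'` is a system on `Bool` (`st = not`; `e e' = 0 = e' e` by
  `c = 1` in the hypotheses; `Adj form e' e` since the form is alternating).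
* `exists_sysQ`: strong induction on `finrank (range q)`. `q = 0`: the empty system on `Empty` (or `Fin 0`). `q ≠ 0`: `exists_self` gives `f` or `e, e'`; put `q₀ = f` or
  `q₀ = e + e'`, a self-adjoint idempotent of `C`, `q q₀ = q₀ = q₀ q`, `q₀ ≠ 0`. Then `q₁ = q - q₀` is a self-adjoint idempotent of `C` with `q₁ q₀ = 0 = q₀ q₁`, and
  `finrank (range q₁) < finrank (range q)`: `range q₁ ≤ range q` (`q q₁ = q₁`), and equality would give `q₁ q = q`, i.e. `q₀ = q₀ q = q₀ q₁ q = 0`. Add.
* `exists_sys_of`: `q = 1`, transport to `Fin N` by `Fintype.equivFin`.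
-/

set_option autoImplicit false

namespace Pool.Agent.Lib.MP_640417_ag.T3

open Module Pool.Agent.Lib.MP_640417_ag Pool.Agent.Lib.MP_640417_ag.Lef
  Pool.Agent.Lib.MP_640417_ag.Four Pool.Agent.Lib.MP_640417_ag.Dfr
  Pool.Agent.Lib.MP_640417_ag.Dfr.RelM

variable {K V : Type} [Field K] [CharZero K] [IsAlgClosed K] [AddCommGroup V]
    [Module K V] [FiniteDimensional K V] {form : LinearMap.BilinForm K V}
    {C : Subalgebra K (Module.End K V)}

private theorem sysQ_zero : SysQ form C 0 (fun j : Empty => j) (fun _ => 0) where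
  mem j := j.elim
  ne j := j.elim
  sum := Fintype.sum_empty _
  idem j := j.elim
  orth j := j.elim
  inv j := j.elim
  adj j := j.elim
  one j := j.elim
  far j := j.elim

private theorem q_mul {q : Module.End K V} {I : Type} [Fintype I] {st : I → I}
    {ε : I → Module.End K V} (h : SysQ form C q st ε) (j : I) : q * ε j = ε j := by
  classical
  rw [← h.sum, Finset.sum_mul, Finset.sum_eq_single j]
  · exact h.idem j
  · intro k _ hk
    exact h.orth k j hk
  · intro hj
    exact absurd (Finset.mem_univ j) hj

private theorem mul_q {q : Module.End K V} {I : Type} [Fintype I] {st : I → I}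
    {ε : I → Module.End K V} (h : SysQ form C q st ε) (j : I) : ε j * q = ε j := by
  classical
  rw [← h.sum, Finset.mul_sum, Finset.sum_eq_single j]
  · exact h.idem j
  · intro k _ hk
    exact h.orth j k (Ne.symm hk)
  · intro hj
    exact absurd (Finset.mem_univ j) hj

private theorem sysQ_add {q₁ q₂ : Module.End K V} (h12 : q₁ * q₂ = 0) (h21 : q₂ * q₁ = 0)
    {I J : Type} [Fintype I] [Fintype J] {st₁ : I → I} {st₂ : J → J} {ε₁ : I → Module.End K V}
    {ε₂ : J → Module.End K V} (h₁ : SysQ form C q₁ st₁ ε₁) (h₂ : SysQ form C q₂ st₂ ε₂) :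
    SysQ form C (q₁ + q₂) (Sum.map st₁ st₂) (Sum.elim ε₁ ε₂) where
  mem := by
    rintro (j | j)
    · exact h₁.mem j
    · exact h₂.mem j
  ne := by
    rintro (j | j)
    · exact h₁.ne j
    · exact h₂.ne j
  sum := by
    rw [Fintype.sum_sum_type]
    simp only [Sum.elim_inl, Sum.elim_inr]
    rw [h₁.sum, h₂.sum]
  idem := by
    rintro (j | j)
    · exact h₁.idem j
    · exact h₂.idem j
  orth := by
    rintro (j | j) (k | k) hjk
    · exact h₁.orth j k fun h => hjk (by rw [h])
    · change ε₁ j * ε₂ k = 0
      rw [← mul_q h₁ j, ← q_mul h₂ k, mul_assoc, ← mul_assoc q₁, h12, zero_mul, mul_zero]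
    · change ε₂ j * ε₁ k = 0
      rw [← mul_q h₂ j, ← q_mul h₁ k, mul_assoc, ← mul_assoc q₂, h21, zero_mul, mul_zero]
    · exact h₂.orth j k fun h => hjk (by rw [h])
  inv := by
    rintro (j | j)
    · exact congrArg Sum.inl (h₁.inv j)
    · exact congrArg Sum.inr (h₂.inv j)
  adj := by
    rintro (j | j)
    · exact h₁.adj j
    · exact h₂.adj j
  one := by
    rintro (j | j)
    · exact h₁.one j
    · exact h₂.one j
  far := by
    rintro (j | j) hj
    · exact h₁.far j fun h => hj (congrArg Sum.inl h)
    · exact h₂.far j fun h => hj (congrArg Sum.inr h)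

private theorem sysQ_one {f : Module.End K V} (hf : MinIdem C f) (hff : Adj form f f) :
    SysQ form C f (fun j : Unit => j) (fun _ => f) where
  mem _ := hf.mem
  ne _ := hf.ne
  sum := by simp
  idem _ := hf.idem
  orth _ _ h := absurd rfl h
  inv _ := rfl
  adj _ := hff
  one _ := hf.one
  far _ h := absurd rfl h

private theorem sysQ_two (halt : ∀ x, form x x = 0) {e e' : Module.End K V} (he : MinIdem C e)
    (he' : MinIdem C e') (hee : Adj form e e') (h1 : ∀ c ∈ C, e' * c * e = 0)
    (h2 : ∀ c ∈ C, e * c * e' = 0) :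
    SysQ form C (e + e') (fun j : Bool => !j) (fun j => if j then e else e') where
  mem j := by
    cases j
    · exact he'.mem
    · exact he.mem
  ne j := by
    cases j
    · exact he'.ne
    · exact he.ne
  sum := by
    rw [Fintype.sum_bool]
    rfl
  idem j := by
    cases j
    · exact he'.idem
    · exact he.idem
  orth j k hjk := by
    have h3 := h1 1 C.one_mem
    have h4 := h2 1 C.one_mem
    rw [mul_one] at h3 h4
    cases j <;> cases k
    · exact absurd rfl hjk
    · exact h3
    · exact h4
    · exact absurd rfl hjk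
  inv j := Bool.not_not j
  adj j := by
    cases j
    · intro x y
      change form (e' x) y = form x (e y)
      rw [anti' halt (e' x) y, ← hee y x, anti' halt (e y) x, neg_neg]
    · exact hee
  one j := by
    cases j
    · exact he'.one
    · exact he.one
  far j hj := by
    cases j
    · exact h2
    · exact h1

theorem exists_sysQ (halt : ∀ x, form x x = 0) (hnd : ∀ x, (∀ y, form x y = 0) → x = 0)
    (hreg : Reg C) (hadj : AdjC form C) (hno : ∀ c, ¬ SkewOne form C c) {q : Module.End K V}
    (hq : q ∈ C) (hqq : q * q = q) (hqa : Adj form q q) :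
    ∃ (I : Type) (_ : Fintype I) (st : I → I) (ε : I → Module.End K V),
      SysQ form C q st ε := by
  induction hn : finrank K (LinearMap.range q) using Nat.strong_induction_on generalizing q with
  | _ n ih =>
    subst hn
    by_cases hq0 : q = 0
    · subst hq0
      exact ⟨Empty, inferInstance, _, _, sysQ_zero⟩
    -- the step
    have step : ∀ (q₀ : Module.End K V), q₀ ∈ C → q₀ ≠ 0 → q₀ * q₀ = q₀ → q * q₀ = q₀ →
        q₀ * q = q₀ → Adj form q₀ q₀ → (∃ (I : Type) (_ : Fintype I) (st : I → I)
          (ε : I → Module.End K V), SysQ form C q₀ st ε) →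
        ∃ (I : Type) (_ : Fintype I) (st : I → I) (ε : I → Module.End K V),
          SysQ form C q st ε := by
      rintro q₀ h0C h00 h0i hq0' h0q h0a ⟨I, fI, st, ε, hI⟩
      have e1 : (q - q₀) * (q - q₀) = q - q₀ := by
        rw [sub_mul, mul_sub, mul_sub, hqq, hq0', h0q, h0i, sub_self, sub_zero]
      have e2 : q * (q - q₀) = q - q₀ := by rw [mul_sub, hqq, hq0']
      have e3 : (q - q₀) * q = q - q₀ := by rw [sub_mul, hqq, h0q]
      have hle : LinearMap.range (q - q₀) ≤ LinearMap.range q := by
        rintro _ ⟨x, rfl⟩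
        refine ⟨(q - q₀) x, ?_⟩
        exact LinearMap.congr_fun e2 x
      have hlt : finrank K (LinearMap.range (q - q₀)) < finrank K (LinearMap.range q) := by
        refine lt_of_le_of_ne (Submodule.finrank_mono hle) fun heq => h00 ?_
        have h1 := Submodule.eq_of_le_of_finrank_eq hle heq
        have h2 : (q - q₀) * q = q := by
          refine LinearMap.ext fun x => ?_
          have h3 : q x ∈ LinearMap.range (q - q₀) := by
            rw [h1]
            exact ⟨x, rfl⟩
          obtain ⟨y, hy⟩ := h3
          change (q - q₀) (q x) = q x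
          rw [← hy]
          exact LinearMap.congr_fun e1 y
        rw [e3] at h2
        exact sub_eq_self.1 h2
      obtain ⟨J, fJ, st', ε', hJ⟩ := ih _ hlt (C.sub_mem hq h0C) e1 (hqa.sub h0a) rfl
      have h1 : q₀ * (q - q₀) = 0 := by rw [mul_sub, h0q, h0i, sub_self]
      have h2 : (q - q₀) * q₀ = 0 := by rw [sub_mul, hq0', h0i, sub_self]
      have h3 := sysQ_add h1 h2 hI hJ
      rw [add_sub_cancel] at h3
      exact ⟨I ⊕ J, inferInstance, _, _, h3⟩
    rcases exists_self halt hnd hreg hadj hno hq hqq hqa hq0 with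
      ⟨f, hf, h1, h2, h3⟩ | ⟨e, e', he, he', h1, h2, h3, h4, h5, h6, h7⟩
    · exact step f hf.mem hf.ne hf.idem h1 h2 h3 ⟨Unit, inferInstance, _, _, sysQ_one hf h3⟩
    · have h67 := sysQ_two halt he he' h5 h6 h7
      have k1 : e * e' = 0 := by
        have h := h7 1 C.one_mem
        rwa [mul_one] at h
      have k2 : e' * e = 0 := by
        have h := h6 1 C.one_mem
        rwa [mul_one] at h
      have hsym : Adj form e' e := fun x y => by
        rw [anti' halt (e' x) y, ← h5 y x, anti' halt (e y) x, neg_neg]
      refine step (e + e') (C.add_mem he.mem he'.mem) ?_ ?_ ?_ ?_ ?_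
        ⟨Bool, inferInstance, _, _, h67⟩
      · intro h
        apply he.ne
        have h8 : e * (e + e') = 0 := by rw [h, mul_zero]
        rwa [mul_add, he.idem, k1, add_zero] at h8
      · rw [add_mul, mul_add, mul_add, he.idem, he'.idem, k1, k2, add_zero, zero_add]
      · rw [mul_add, h1, h3]
      · rw [add_mul, h2, h4]
      · have h8 := h5.add hsym
        rwa [add_comm e' e] at h8

theorem exists_sys_of (halt : ∀ x, form x x = 0) (hnd : ∀ x, (∀ y, form x y = 0) → x = 0)
    (hreg : Reg C) (hadj : AdjC form C) (hno : ∀ c, ¬ SkewOne form C c) :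
    ∃ (N : ℕ) (st : Fin N → Fin N) (ε : Fin N → Module.End K V), Sys form C N st ε := by
  obtain ⟨I, fI, st, ε, h⟩ := exists_sysQ halt hnd hreg hadj hno (q := 1) C.one_mem (mul_one 1)
    Adj.one
  have u := Fintype.equivFin I
  refine ⟨Fintype.card I, fun j => u (st (u.symm j)), fun j => ε (u.symm j), ?_⟩
  have hne : ∀ j k : Fin (Fintype.card I), j ≠ k → u.symm j ≠ u.symm k := fun j k hjk hh =>
    hjk (u.symm.injective hh)
  exact
    { mem := fun j => h.mem _
      ne := fun j => h.ne _
      sum := by
        rw [← h.sum]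
        exact Equiv.sum_comp u.symm ε
      idem := fun j => h.idem _
      orth := fun j k hjk => h.orth _ _ (hne j k hjk)
      inv := fun j => by
        simp only [Equiv.symm_apply_apply, h.inv, Equiv.apply_symm_apply]
      adj := fun j x y => by
        simp only [Equiv.symm_apply_apply]
        exact h.adj _ x y
      one := fun j => h.one _
      far := fun j hj => by
        simp only [Equiv.symm_apply_apply]
        refine h.far _ fun hh => hj ?_
        simp only [hh, Equiv.apply_symm_apply] }

end Pool.Agent.Lib.MP_640417_ag.T3
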