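import Pool.Agent.Lib.MP_640417_ag.T3.Exo
import Pool.Agent.Lib.MP_640417_ag.T3.EvenA
import Pool.Agent.Lib.MP_640417_ag.T3.EvenB
import Pool.Agent.Lib.MP_640417_ag.T3.SysE
import Pool.Agent.Lib.MP_640417_ag.Wn.Elt
import Pool.Agent.Lib.MP_640417_ag.Gen4.Main

/-!
# MP_640417_ag, T3: without exotic classes there are no components of type III
-/

set_option autoImplicit false

namespace Pool.Agent.Lib.MP_640417_ag.T3

open Module TensorProduct Pool.Agent.Lib.MP_640417_ag Pool.Agent.Lib.MP_640417_ag.Frob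
  Pool.Agent.Lib.MP_640417_ag.Four Pool.Agent.Lib.MP_640417_ag.Ty
  Pool.Agent.Lib.MP_640417_ag.Lef Pool.Agent.Lib.MP_640417_ag.Dfr
  Pool.Agent.Lib.MP_640417_ag.Glob Pool.Agent.Lib.MP_640417_ag.Gn
  Pool.Agent.Lib.MP_640417_ag.Gen4 Pool.Agent.Lib.MP_640417_ag.Wn
  Pool.Agent.Lib.MP_640417_ag.Dfr.RelM

section general

variable {F : Type} [NontriviallyNormedField F] [CharZero F]
  {Γ : Type} [Group Γ] [TopologicalSpace Γ] [IsTopologicalGroup Γ] [CompactSpace Γ] {V : Type}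
  [AddCommGroup V] [Module F V] [FiniteDimensional F V] (ρ : H1Rep Γ F V)

/-- Without components of type III the commutant has a system of minimal idempotents. -/
theorem hasSys_of_noIII (hss : Semisimple ρ) (h : NoIII ρ) : HasSys ρ := by
  have hchar : CharZero (AlgebraicClosure F) :=
    charZero_of_injective_algebraMap (algebraMap F (AlgebraicClosure F)).injective
  obtain ⟨U, hU⟩ := exists_U0 ρ
  rw [← hasSys_res ρ U]
  have hfull : ∀ c, CommF (res ρ U) c → ∀ γ, c * (res ρ U).T γ = (res ρ U).T γ * c :=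
    fun c hc γ => (hU γ.1).mp γ.2 c ((commF_res ρ U c).mp hc)
  exact exists_sys_of (alt_baseChange (AlgebraicClosure F) ρ.form ρ.form_alt)
    (nondeg_baseChange (AlgebraicClosure F) ρ.form ρ.form_alt ρ.form_nondeg)
    (reg_comK (res ρ U) (semi_res ρ U hss) hfull) (adj_comK (res ρ U) hfull)
    ((noIII_resU ρ U).mpr h)

/-- A system of minimal idempotents excludes components of type III. -/
theorem noIII_of_hasSys (hss : Semisimple ρ) (h : HasSys ρ) : NoIII ρ := by
  have hchar : CharZero (AlgebraicClosure F) :=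
    charZero_of_injective_algebraMap (algebraMap F (AlgebraicClosure F)).injective
  obtain ⟨U, hU⟩ := exists_U0 ρ
  rw [← hasSys_res ρ U] at h
  rw [← noIII_resU ρ U]
  have hfull : ∀ c, CommF (res ρ U) c → ∀ γ, c * (res ρ U).T γ = (res ρ U).T γ * c :=
    fun c hc γ => (hU γ.1).mp γ.2 c ((commF_res ρ U c).mp hc)
  obtain ⟨N, st, ε, hS⟩ := h
  exact no_skewOne (alt_baseChange (AlgebraicClosure F) ρ.form ρ.form_alt)
    (nondeg_baseChange (AlgebraicClosure F) ρ.form ρ.form_alt ρ.form_nondeg)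
    (reg_comK (res ρ U) (semi_res ρ U hss) hfull) hS

end general

section main

variable (l : ℕ) [Fact l.Prime] {Γ : Type} [Group Γ]
    [TopologicalSpace Γ] [IsTopologicalGroup Γ] [CompactSpace Γ] {V : Type} [AddCommGroup V]
    [Module ℚ_[l] V] [FiniteDimensional ℚ_[l] V] (ρ : H1Rep Γ ℚ_[l] V)

/-- **No exotic classes, no components of type III.** -/
theorem noIII_of_noExotic (hss : Semisimple ρ) (hF : Dense {γ | FrobLike ρ γ})
    (h : NoExotic ρ) : NoIII ρ := by
  intro c hc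
  obtain ⟨R, h1, h2, h3⟩ := exists_coord ρ (Module.finBasis ℚ_[l] V)
  obtain ⟨U0, hU0⟩ := exists_U0 ρ
  obtain ⟨U1, hU1⟩ := Glob.exists_U0 R (r := ‖(l : ℚ_[l])‖ ^ 2)
    (pow_pos (norm_pos_iff.mpr (l_ne l)) 2) (pow_lt_one₀ (norm_nonneg _) (norm_l l) two_ne_zero)
  let U : OpenSubgroup Γ := U0 ⊓ U1
  have := topGroup_U U
  have := compact_U U
  have hfull : ∀ c, CommF (res ρ U) c → ∀ γ, c * (res ρ U).T γ = (res ρ U).T γ * c :=
    fun c hc γ => (hU0 γ.1).mp γ.2.1 c ((commF_res ρ U c).mp hc)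
  have hc' : SkewOne ((res ρ U).form.baseChange (AlgebraicClosure ℚ_[l]))
      (comK (res ρ U)) c := by
    rw [comK_resU]
    exact hc
  rcases Nat.even_or_odd' (finrank (AlgebraicClosure ℚ_[l]) (LinearMap.range c)) with
    ⟨m, hm | hm⟩
  · exact exotic_of_skewOne (res ρ U) (semi_res ρ U hss) hfull hc' hm
      ((noExotic_res ρ U).mpr h)
  · obtain ⟨d, hd, hcd⟩ := reg_comK (res ρ U) (semi_res ρ U hss) hfull c hc'.mem
    obtain ⟨γ, hγU, hγF⟩ := hF.inter_open_nonempty (U : Set Γ) U.isOpen ⟨1, U.one_mem⟩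
    obtain ⟨p, P, hP, -⟩ := hγF
    obtain ⟨δ, hδ, hev⟩ := exists_real
      (alt_baseChange (AlgebraicClosure ℚ_[l]) ρ.form ρ.form_alt)
      (nondeg_baseChange (AlgebraicClosure ℚ_[l]) ρ.form ρ.form_alt ρ.form_nondeg)
      (adj_comK (res ρ U) hfull) (TK (res ρ U)) (chK (res ρ U)) (formK_eq (res ρ U))
      (fun a ha γ => comK_full (res ρ U) hfull ha γ) hc' hd hcd ⟨γ, hγU⟩ ⟨m, hm⟩
    have hδ2 : δ ^ 2 = (p : AlgebraicClosure ℚ_[l]) := by
      rw [hδ, chK_inv]
      have h4 : (((res ρ U).χ ⟨γ, hγU⟩)⁻¹ : ℚ_[l]ˣ).val = (p : ℚ_[l]) := by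
        have h5 := hP.cyclotomic
        rw [pow_one] at h5
        exact h5
      rw [h4, map_natCast]
    have h4 : Polynomial.aeval δ P = 0 := elt_roots (ρ.T γ) hP.charpoly hev
    have h5 := root_neg hP.prime hδ2 h4
    have h6 : (LinearMap.toMatrix (Module.finBasis ℚ_[l] V) (Module.finBasis ℚ_[l] V)
        (ρ.T γ)).charpoly = P.map (Int.castRingHom ℚ_[l]) := by
      rw [LinearMap.charpoly_toMatrix, hP.charpoly]
    have h7 := (hU1 γ).mp hγU.2
    rw [h1] at h7
    have h8 : ∀ z : AlgebraicClosure ℚ_[l], Polynomial.aeval z P = 0 →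
        Polynomial.aeval z (P.map (Int.castRingHom ℚ_[l])) = 0 := by
      intro z hz
      have h9 : Int.castRingHom ℚ_[l] = algebraMap ℤ ℚ_[l] := RingHom.ext_int _ _
      rw [h9, Polynomial.aeval_map_algebraMap]
      exact hz
    refine not_near l h7 (δ := δ) ?_ ?_
    · rw [h6]
      exact h8 δ h4
    · rw [h6]
      exact h8 (-δ) h5

end main

end Pool.Agent.Lib.MP_640417_ag.T3
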