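import Pool.Agent.Lib.MP_640417_ag.T3.Defs

/-!
# MP_640417_ag, T3, module Op (180 lines): operators of elements of degree two

`exists_op`: for a fixed `u : V` the map `(v, w) ↦ form u (v 0) • w 0 - form u (w 0) • v 0` is alternating on `Fin 1 → V`; so it is given on `⋀²` by
`ExteriorAlgebra.liftAlternating` (with `Function.update (fun _ => 0) 2 _` as in `Gen4/DivK.lean`, where `Dd` is defined in this way; target
`N = Module.End K V`, the alternating map in two variables with values in `Module.End K V`). Another construction: choose a basis and use the functionals `Dd`; or contractions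
(`CliffordAlgebra.contractLeft (form u)`). Injectivity: let `b` be a basis of `V`, `b'` the dual basis for the form (`form (b' i) (b j) = δ_ij`; `LinearMap.BilinForm.dualBasis`,
or: all functionals are of the form `form u`). For `x ∈ ⋀²`: `x + x = ∑ i, ι (b i) * ι (L x (b' i))` with the embedding `V → (Fin 1 → V)` (check on products
`ι v * ι w`, where the right side is `v w - w v = 2 v w`); so `L x = 0` gives `x + x = 0`, `x = 0`. Use `two_ind` (copy the private lemma of `Gen4/DivK.lean`).

`op_map`: check on products (`two_ind`): `form u (g v) = - form (g v) u = - form v (g' u) = form (g' u) v`.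
`op_self`: on products.
-/

set_option autoImplicit false

namespace Pool.Agent.Lib.MP_640417_ag.T3

open Module Pool.Agent.Lib.MP_640417_ag Pool.Agent.Lib.MP_640417_ag.Lef
  Pool.Agent.Lib.MP_640417_ag.Four Pool.Agent.Lib.MP_640417_ag.Dfr
  Pool.Agent.Lib.MP_640417_ag.Dfr.RelM

/-- `L` sends `v ∧ w` to the operator `u ↦ form u v • w - form u w • v`. -/
def IsOp {K V : Type} [Field K] [AddCommGroup V] [Module K V] (form : LinearMap.BilinForm K V)
    (L : ExteriorAlgebra K (Fin 1 → V) →ₗ[K] Module.End K V) : Prop :=
  ∀ v w u, L (ExteriorAlgebra.ι K v * ExteriorAlgebra.ι K w) u =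
    form u (v 0) • w 0 - form u (w 0) • v 0

variable {K V : Type} [Field K] [CharZero K] [AddCommGroup V]
    [Module K V] [FiniteDimensional K V] {form : LinearMap.BilinForm K V}

/-- induction over products of two vectors -/
theorem op_ind {K V : Type} [Field K] [AddCommGroup V] [Module K V]
    {P : ExteriorAlgebra K V → Prop}
    (hm : ∀ v w : V, P (ExteriorAlgebra.ι K v * ExteriorAlgebra.ι K w))
    (ha : ∀ x y, P x → P y → P (x + y)) {x : ExteriorAlgebra K V} (hx : x ∈ ⋀[K]^2 V) : P x := by
  have hx' : x ∈ LinearMap.range (ExteriorAlgebra.ι K (M := V)) *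
      LinearMap.range (ExteriorAlgebra.ι K (M := V)) := by
    rw [← pow_two]
    exact hx
  refine Submodule.mul_induction_on hx' ?_ ha
  rintro _ ⟨v, rfl⟩ _ ⟨w, rfl⟩
  exact hm v w

omit [CharZero K] [FiniteDimensional K V] in
/-- the functional `w ↦ form u (w 0)` -/
noncomputable def fn (form : LinearMap.BilinForm K V) : V →ₗ[K] Module.Dual K (Fin 1 → V) where
  toFun u := (form u) ∘ₗ LinearMap.proj 0
  map_add' u v := by rw [map_add, LinearMap.add_comp]
  map_smul' c u := by rw [map_smul, LinearMap.smul_comp]; rfl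

omit [CharZero K] [FiniteDimensional K V] in
theorem fn_apply (u : V) (w : Fin 1 → V) : fn form u w = form u (w 0) := rfl

/-- the operator -/
noncomputable def opL (form : LinearMap.BilinForm K V) :
    ExteriorAlgebra K (Fin 1 → V) →ₗ[K] Module.End K V :=
  LinearMap.mk₂ K (fun x u => ExteriorAlgebra.ιInv
      (CliffordAlgebra.contractLeft (Q := (0 : QuadraticForm K (Fin 1 → V))) (fn form u) x) 0)
    (fun x y u => by rw [map_add, map_add]; rfl)
    (fun c x u => by rw [map_smul, map_smul]; rfl)
    (fun x u v => by rw [map_add, map_add, LinearMap.add_apply, map_add]; rfl)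
    (fun c x u => by rw [map_smul, map_smul, LinearMap.smul_apply, map_smul]; rfl)

omit [CharZero K] [FiniteDimensional K V] in
theorem opL_isOp : IsOp form (opL form) := by
  intro v w u
  have h1 : CliffordAlgebra.contractLeft (Q := (0 : QuadraticForm K (Fin 1 → V))) (fn form u)
      (ExteriorAlgebra.ι K v * ExteriorAlgebra.ι K w) =
      form u (v 0) • ExteriorAlgebra.ι K w - form u (w 0) • ExteriorAlgebra.ι K v := by
    have h3 := CliffordAlgebra.contractLeft_ι (Q := (0 : QuadraticForm K (Fin 1 → V)))
      (d := fn form u) w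
    change CliffordAlgebra.contractLeft (fn form u)
      (CliffordAlgebra.ι 0 v * CliffordAlgebra.ι 0 w) = _
    rw [CliffordAlgebra.contractLeft_ι_mul, h3, fn_apply, fn_apply]
    congr 1
    rw [← Algebra.commutes, ← Algebra.smul_def]
  change ExteriorAlgebra.ιInv (CliffordAlgebra.contractLeft
    (Q := (0 : QuadraticForm K (Fin 1 → V))) (fn form u)
      (ExteriorAlgebra.ι K v * ExteriorAlgebra.ι K w)) 0 = _
  rw [h1, map_sub, map_smul, map_smul, ExteriorAlgebra.ι_leftInverse, ExteriorAlgebra.ι_leftInverse]
  rfl

theorem exists_op (halt : ∀ x, form x x = 0) (hnd : ∀ x, (∀ y, form x y = 0) → x = 0) :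
    ∃ L : ExteriorAlgebra K (Fin 1 → V) →ₗ[K] Module.End K V, IsOp form L ∧
      ∀ x ∈ ⋀[K]^2 (Fin 1 → V), L x = 0 → x = 0 := by
  refine ⟨opL form, opL_isOp, fun x hx hL => ?_⟩
  let b := Module.finBasis K V
  have hinj : Function.Injective form := by
    rw [injective_iff_map_eq_zero]
    intro u hu
    exact hnd u fun y => by rw [hu, LinearMap.zero_apply]
  have hsurj : Function.Surjective (form : V →ₗ[K] Module.Dual K V) :=
    (LinearMap.injective_iff_surjective_of_finrank_eq_finrank
      (Subspace.dual_finrank_eq (K := K) (V := V)).symm).mp hinj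
  choose b' hb' using fun i => hsurj (b.coord i)
  let jj : V →ₗ[K] (Fin 1 → V) := LinearMap.pi fun _ => LinearMap.id
  have hj : ∀ w : Fin 1 → V, jj (w 0) = w := by
    intro w
    funext i
    rw [Subsingleton.elim i 0]
    rfl
  have key : ∑ i, ExteriorAlgebra.ι K (jj (b i)) * ExteriorAlgebra.ι K (jj (opL form x (b' i))) =
      x + x := by
    refine op_ind (P := fun x => ∑ i, ExteriorAlgebra.ι K (jj (b i)) *
      ExteriorAlgebra.ι K (jj (opL form x (b' i))) = x + x) ?_ ?_ hx
    · intro v w
      have h1 : ∀ v : Fin 1 → V,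
          ∑ i, (form (b' i) (v 0)) • ExteriorAlgebra.ι K (jj (b i)) = ExteriorAlgebra.ι K v := by
        intro v
        rw [← Finset.sum_congr rfl fun i _ => map_smul (ExteriorAlgebra.ι K) (form (b' i) (v 0))
          (jj (b i)), ← map_sum]
        congr 1
        rw [← Finset.sum_congr rfl fun i _ => map_smul jj (form (b' i) (v 0)) (b i), ← map_sum]
        have h2 : ∑ i, form (b' i) (v 0) • b i = v 0 := by
          rw [Finset.sum_congr rfl fun i _ => by rw [hb' i, Basis.coord_apply]]
          exact b.sum_repr (v 0)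
        rw [h2, hj]
      have h3 : ∀ i, ExteriorAlgebra.ι K (jj (b i)) * ExteriorAlgebra.ι K
          (jj (opL form (ExteriorAlgebra.ι K v * ExteriorAlgebra.ι K w) (b' i))) =
          (form (b' i) (v 0) • ExteriorAlgebra.ι K (jj (b i))) * ExteriorAlgebra.ι K w -
          (form (b' i) (w 0) • ExteriorAlgebra.ι K (jj (b i))) * ExteriorAlgebra.ι K v := by
        intro i
        rw [opL_isOp, map_sub, map_smul, map_smul, hj, hj, map_sub, map_smul, map_smul, mul_sub,
          mul_smul_comm, mul_smul_comm, smul_mul_assoc, smul_mul_assoc]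
      rw [Finset.sum_congr rfl fun i _ => h3 i, Finset.sum_sub_distrib, ← Finset.sum_mul,
        ← Finset.sum_mul, h1, h1]
      have h4 := ExteriorAlgebra.ι_add_mul_swap (R := K) v w
      rw [eq_neg_of_add_eq_zero_right h4, sub_neg_eq_add]
    · intro x y hx hy
      have h1 : ∀ i, ExteriorAlgebra.ι K (jj (b i)) * ExteriorAlgebra.ι K
          (jj (opL form (x + y) (b' i))) =
          ExteriorAlgebra.ι K (jj (b i)) * ExteriorAlgebra.ι K (jj (opL form x (b' i))) +
          ExteriorAlgebra.ι K (jj (b i)) * ExteriorAlgebra.ι K (jj (opL form y (b' i))) := by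
        intro i
        rw [map_add, LinearMap.add_apply, map_add, map_add, mul_add]
      rw [Finset.sum_congr rfl fun i _ => h1 i, Finset.sum_add_distrib, hx, hy]
      abel
  rw [hL] at key
  have h1 : x + x = 0 := by
    rw [← key]
    refine Finset.sum_eq_zero fun i _ => ?_
    rw [LinearMap.zero_apply, map_zero, map_zero, mul_zero]
  have h2 : (2 : K) • x = 0 := by rw [two_smul, h1]
  exact (smul_eq_zero.mp h2).resolve_left two_ne_zero

omit [CharZero K] [FiniteDimensional K V] in
theorem op_map (halt : ∀ x, form x x = 0)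
    {L : ExteriorAlgebra K (Fin 1 → V) →ₗ[K] Module.End K V} (hL : IsOp form L)
    {g g' : Module.End K V} (hg : Adj form g g') {x : ExteriorAlgebra K (Fin 1 → V)}
    (hx : x ∈ ⋀[K]^2 (Fin 1 → V)) :
    L (ExteriorAlgebra.map (g.compLeft (Fin 1)) x) = g * L x * g' := by
  have hg' : ∀ u v, form u (g v) = form (g' u) v := by
    intro u v
    rw [anti' halt u (g v), hg v u, anti' halt v (g' u), neg_neg]
  refine op_ind (P := fun x => L (ExteriorAlgebra.map (g.compLeft (Fin 1)) x) = g * L x * g')
    ?_ ?_ hx
  · intro v w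
    refine LinearMap.ext fun u => ?_
    rw [map_mul, ExteriorAlgebra.map_apply_ι, ExteriorAlgebra.map_apply_ι, hL,
      Module.End.mul_apply, Module.End.mul_apply, hL, map_sub, map_smul, map_smul]
    change form u (g (v 0)) • g (w 0) - form u (g (w 0)) • g (v 0) = _
    rw [hg', hg']
  · intro x y hx hy
    rw [map_add, map_add, map_add, hx, hy, mul_add, add_mul]

omit [CharZero K] [FiniteDimensional K V] in
theorem op_self (halt : ∀ x, form x x = 0)
    {L : ExteriorAlgebra K (Fin 1 → V) →ₗ[K] Module.End K V} (hL : IsOp form L)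
    {x : ExteriorAlgebra K (Fin 1 → V)} (hx : x ∈ ⋀[K]^2 (Fin 1 → V)) :
    Adj form (L x) (L x) := by
  refine op_ind (P := fun x => Adj form (L x) (L x)) ?_ ?_ hx
  · intro v w a b
    rw [hL, hL, map_sub, map_sub, LinearMap.sub_apply, map_smul, map_smul, map_smul, map_smul,
      LinearMap.smul_apply, LinearMap.smul_apply, smul_eq_mul, smul_eq_mul, smul_eq_mul,
      smul_eq_mul, anti' halt b (v 0), anti' halt b (w 0)]
    ring
  · intro x y hx hy
    rw [map_add]
    exact hx.add hy

end Pool.Agent.Lib.MP_640417_ag.T3
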