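import Pool.Agent.Lib.MP_640417_ag.T3.MinE

/-!
# MP_640417_ag, T3, module SelfE (180 lines): self-adjoint minimal idempotents

Notation `a'` for the adjoint of `a` (`Adj form a a'`; `Adj.mul`: `(a b)' = b' a'`; `Adj.unique`; `a'' = a` since the form is
alternating; the adjoint of an element of `C` is in `C`: `AdjC` and `Adj.unique`). Take `e` from `exists_min`, `e'` its adjoint: an idempotent of `C`, minimal
(`e' c e' = (e c' e)' = t e'`), `q e' = e' = e' q` (adjoint of `e q = e = q e`).

Case 1: `e' * c * e = 0` for all `c ∈ C`. Then also `e * c * e' = 0` for all `c ∈ C`: by `Reg` there is `d ∈ C` with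
`(e c e') d (e c e') = e c e'`, and the left side is `e c (e' d e) c e' = 0`. This is the second alternative.

Case 2: `b = e' * c0 * e ≠ 0` for some `c0 ∈ C`. `b = e' b = b e`. By `Reg` `b d b = b` for some `d ∈ C`; put `a = e d e' ∈ C`; `b a b = b`.
`a b = s e` by minimality of `e` (`a b = e (d b) e`), and `b = b a b = s b`, so `s = 1`: `a b = e`. Similarly `b a = e'`. For all `c ∈ C`: `e' c e = t b` for some `t`, since
`e' c e = b a (e' c e) = b (e (a c) e) = b (t e)`; similarly `e c e' = t a`.
`b' = (e' c0 e)' = e' c0' e = λ b`, and `b'' = b` gives `λ² = 1`. If `λ = -1`, `b` is `SkewOne` (`b d b = b (e d e') .. `: for `d ∈ C`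
`b d b = b (e d e') b = t b a b = t b`), contradiction. So `b' = b`, and from `a b = e`: `b a' = e'`, so with `a' = μ a` (`a' ∈ e C e'`) `μ e' = e'`, `μ = 1`, `a' = a`.
 A: `e' e = t b` with `t ≠ 0`: `f = t⁻¹ a`; `a a = a e' e a = t a b a = t a` (`a = a e' = e a`), so `f f = f`; `f' = f`; `f c f = t⁻² a c a = t⁻² (e (a c) e) a = .. f`; `f ≠ 0`.
 B: `e e' = t a` with `t ≠ 0`: `f = t⁻¹ b`; `b b = b e e' b = t b a b = t b`; similarly.
 C: `e' e = 0` and `e e' = 0`: `f = 2⁻¹ (a + e + e' + b)`. The products: `a a = a e = e e' = e b = e' a = e' e = b e' = b b = 0`, `a e' = a`, `a b = e`, `e a = a`,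
 `e e = e`, `e' e' = e'`, `e' b = b`, `b a = e'`, `b e = b`. So `f f = f`; `f' = f`. With `u = 1 + b`: `2 f = u e a e' u`-like: `f = 2⁻¹ (e + b) a (e' + b)`, and for
 `c ∈ C` `f c f = 4⁻¹ (e + b) a ((e' + b) c (e + b)) a (e' + b)`, where `(e' + b) c (e + b) = e' ((1 + b) c (1 + b)) e` (as `b = e' b = b e`) `= s b`,
 so `f c f = 4⁻¹ s (e + b) a b a (e' + b) = 2⁻¹ s f`. `f ≠ 0`: `e f e = 2⁻¹ e ≠ 0`.
In all cases `q f = f = f q`.
-/

set_option autoImplicit false

namespace Pool.Agent.Lib.MP_640417_ag.T3

open Module Pool.Agent.Lib.MP_640417_ag Pool.Agent.Lib.MP_640417_ag.Lef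
  Pool.Agent.Lib.MP_640417_ag.Four Pool.Agent.Lib.MP_640417_ag.Dfr
  Pool.Agent.Lib.MP_640417_ag.Dfr.RelM

theorem exists_self {K V : Type} [Field K] [CharZero K] [IsAlgClosed K] [AddCommGroup V]
    [Module K V] [FiniteDimensional K V] {form : LinearMap.BilinForm K V}
    (halt : ∀ x, form x x = 0) (hnd : ∀ x, (∀ y, form x y = 0) → x = 0)
    {C : Subalgebra K (Module.End K V)} (hreg : Reg C) (hadj : AdjC form C)
    (hno : ∀ c, ¬ SkewOne form C c) {q : Module.End K V} (hq : q ∈ C) (hqq : q * q = q)
    (hqa : Adj form q q) (hq0 : q ≠ 0) :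
    (∃ f, MinIdem C f ∧ q * f = f ∧ f * q = f ∧ Adj form f f) ∨
    ∃ e e', MinIdem C e ∧ MinIdem C e' ∧ q * e = e ∧ e * q = e ∧ q * e' = e' ∧ e' * q = e' ∧
      Adj form e e' ∧ (∀ c ∈ C, e' * c * e = 0) ∧ ∀ c ∈ C, e * c * e' = 0 := by
  have hsymm : ∀ {a a' : Module.End K V}, Adj form a a' → Adj form a' a := by
    intro a a' h x y
    rw [anti' halt (a' x) y, ← h y x, anti' halt (a y) x, neg_neg]
  obtain ⟨e, he, hqe, heq⟩ := exists_min hreg hq hqq hq0
  obtain ⟨e', he'C, hA⟩ := hadj e he.mem
  replace hA : Adj form e e' := hA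
  have hA' : Adj form e' e := hsymm hA
  have hee' : e' * e' = e' := Adj.unique halt hnd (hA.mul hA) (by rw [he.idem]; exact hA)
  have he'ne : e' ≠ 0 := by
    intro h
    rw [h] at hA
    apply he.ne
    refine LinearMap.ext fun x => hnd _ fun y => ?_
    rw [hA x y, LinearMap.zero_apply, map_zero]
  have he' : MinIdem C e' := by
    refine ⟨he'C, he'ne, hee', fun c hc => ?_⟩
    obtain ⟨c', hc', hcc⟩ := hadj c hc
    obtain ⟨t, ht⟩ := he.one c' hc'
    have h1 : Adj form (e * c' * e) (e' * (c * e')) := (hA.mul (hsymm hcc)).mul hA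
    rw [ht] at h1
    refine ⟨t, ?_⟩
    rw [mul_assoc]
    exact Adj.unique halt hnd h1 (hA.smul t)
  have hqe' : q * e' = e' := Adj.unique halt hnd (hA.mul hqa) (by rw [heq]; exact hA)
  have he'q : e' * q = e' := Adj.unique halt hnd (hqa.mul hA) (by rw [hqe]; exact hA)
  by_cases h : ∀ c ∈ C, e' * c * e = 0
  · right
    refine ⟨e, e', he, he', hqe, heq, hqe', he'q, hA, h, fun c hc => ?_⟩
    obtain ⟨d, hd, hdd⟩ := hreg (e * c * e') (C.mul_mem (C.mul_mem he.mem hc) he'C)
    rw [← hdd]
    calc e * c * e' * d * (e * c * e') = e * c * (e' * d * e) * c * e' := by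
          simp only [mul_assoc]
      _ = 0 := by rw [h d hd, mul_zero, zero_mul, zero_mul]
  left
  push Not at h
  obtain ⟨c0, hc0, hb0⟩ := h
  obtain ⟨b, hb⟩ : ∃ b, b = e' * c0 * e := ⟨_, rfl⟩
  rw [← hb] at hb0
  have hbC : b ∈ C := by
    rw [hb]
    exact C.mul_mem (C.mul_mem he'C hc0) he.mem
  obtain ⟨d, hd, hbdb⟩ := hreg b hbC
  have e'b : e' * b = b := by rw [hb, ← mul_assoc, ← mul_assoc, hee']
  have be : b * e = b := by rw [hb, mul_assoc, he.idem]
  obtain ⟨a, ha⟩ : ∃ a, a = e * d * e' := ⟨_, rfl⟩
  have haC : a ∈ C := by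
    rw [ha]
    exact C.mul_mem (C.mul_mem he.mem hd) he'C
  have ea : e * a = a := by rw [ha, ← mul_assoc, ← mul_assoc, he.idem]
  have ae' : a * e' = a := by rw [ha, mul_assoc, hee']
  have bab : b * a * b = b := by
    calc b * a * b = (b * e) * d * (e' * b) := by rw [ha]; simp only [mul_assoc]
      _ = b := by rw [be, e'b, hbdb]
  have ab : a * b = e := by
    obtain ⟨s, hs⟩ := he.one (d * b) (C.mul_mem hd hbC)
    have h1 : a * b = s • e := by
      rw [← hs]
      calc a * b = e * d * (e' * b) := by rw [ha]; simp only [mul_assoc]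
        _ = e * d * (b * e) := by rw [e'b, be]
        _ = e * (d * b) * e := by simp only [mul_assoc]
    have h2 : s • b = b := by
      calc s • b = b * (s • e) := by rw [mul_smul_comm, be]
        _ = b * a * b := by rw [← h1, mul_assoc]
        _ = b := bab
    have h3 : s = 1 := by
      have h4 : (s - 1) • b = 0 := by rw [sub_smul, h2, one_smul, sub_self]
      exact sub_eq_zero.mp ((smul_eq_zero.mp h4).resolve_right hb0)
    rw [h1, h3, one_smul]
  have ba : b * a = e' := by
    obtain ⟨s, hs⟩ := he'.one (b * d) (C.mul_mem hbC hd)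
    have h1 : b * a = s • e' := by
      rw [← hs]
      calc b * a = (b * e) * d * e' := by rw [ha]; simp only [mul_assoc]
        _ = (e' * b) * d * e' := by rw [e'b, be]
        _ = e' * (b * d) * e' := by simp only [mul_assoc]
    have h2 : s • b = b := by
      calc s • b = (s • e') * b := by rw [smul_mul_assoc, e'b]
        _ = b * a * b := by rw [← h1]
        _ = b := bab
    have h3 : s = 1 := by
      have h4 : (s - 1) • b = 0 := by rw [sub_smul, h2, one_smul, sub_self]
      exact sub_eq_zero.mp ((smul_eq_zero.mp h4).resolve_right hb0)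
    rw [h1, h3, one_smul]
  have hone : ∀ c ∈ C, ∃ t : K, e' * c * e = t • b := by
    intro c hc
    obtain ⟨t, ht⟩ := he.one (a * c) (C.mul_mem haC hc)
    refine ⟨t, ?_⟩
    calc e' * c * e = b * a * c * e := by rw [ba]
      _ = b * (e * a) * c * e := by rw [ea]
      _ = b * (e * (a * c) * e) := by simp only [mul_assoc]
      _ = t • b := by rw [ht, mul_smul_comm, be]
  have hone' : ∀ c ∈ C, ∃ t : K, e * c * e' = t • a := by
    intro c hc
    obtain ⟨t, ht⟩ := he'.one (b * c) (C.mul_mem hbC hc)
    refine ⟨t, ?_⟩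
    calc e * c * e' = a * b * c * e' := by rw [ab]
      _ = a * (e' * b) * c * e' := by rw [e'b]
      _ = a * (e' * (b * c) * e') := by simp only [mul_assoc]
      _ = t • a := by rw [ht, mul_smul_comm, ae']
  have hbb : Adj form b b := by
    obtain ⟨c0', hc0', hcc⟩ := hadj c0 hc0
    have h1 : Adj form (e' * c0 * e) (e' * (c0' * e)) := (hA'.mul hcc).mul hA
    obtain ⟨s, hs⟩ := hone c0' hc0'
    rw [← mul_assoc, hs, ← hb] at h1
    have h2 : b = s • s • b := Adj.unique halt hnd (hsymm h1) (h1.smul s)
    have h3 : s = 1 ∨ s = -1 := by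
      have h4 : (1 - s * s) • b = 0 := by
        rw [sub_smul, one_smul, mul_smul, ← h2, sub_self]
      have h5 := (smul_eq_zero.mp h4).resolve_right hb0
      have h6 : (1 - s) * (1 + s) = 0 := by linear_combination h5
      rcases mul_eq_zero.mp h6 with h7 | h7
      · left
        linear_combination -h7
      · right
        linear_combination h7
    rcases h3 with h3 | h3
    · rw [h3, one_smul] at h1
      exact h1
    · exfalso
      refine hno b ⟨hbC, hb0, fun x y => ?_, fun c hc => ?_⟩
      · have h4 := h1 x y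
        rw [h3, neg_smul, one_smul, LinearMap.neg_apply, map_neg] at h4
        rw [h4]
        exact neg_add_cancel _
      · obtain ⟨t, ht⟩ := hone' c hc
        refine ⟨t, ?_⟩
        calc b * c * b = (b * e) * c * (e' * b) := by rw [be, e'b]
          _ = b * (e * c * e') * b := by simp only [mul_assoc]
          _ = t • b := by rw [ht, mul_smul_comm, smul_mul_assoc, bab]
  have haa : Adj form a a := by
    obtain ⟨d', hd', hdd⟩ := hadj d hd
    have h1 : Adj form (e * d * e') (e * (d' * e')) := (hA.mul hdd).mul hA'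
    obtain ⟨s, hs⟩ := hone' d' hd'
    rw [← mul_assoc, hs, ← ha] at h1
    have h2 : b * (s • a) = e' := Adj.unique halt hnd (h1.mul hbb) (by rw [ab]; exact hA)
    rw [mul_smul_comm, ba] at h2
    have h3 : s = 1 := by
      have h4 : (s - 1) • e' = 0 := by rw [sub_smul, h2, one_smul, sub_self]
      exact sub_eq_zero.mp ((smul_eq_zero.mp h4).resolve_right he'ne)
    rw [h3, one_smul] at h1
    exact h1
  have qa : q * a = a := by rw [← ea, ← mul_assoc, hqe]
  have aq : a * q = a := by
    calc a * q = a * (e' * q) := by rw [← mul_assoc, ae']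
      _ = a := by rw [he'q, ae']
  have qb : q * b = b := by
    calc q * b = (q * e') * b := by rw [mul_assoc, e'b]
      _ = b := by rw [hqe', e'b]
  have bq : b * q = b := by
    calc b * q = b * (e * q) := by rw [← mul_assoc, be]
      _ = b := by rw [heq, be]
  obtain ⟨t, ht⟩ := hone 1 C.one_mem
  rw [mul_one] at ht
  by_cases ht0 : t = 0
  · obtain ⟨t2, ht2⟩ := hone' 1 C.one_mem
    rw [mul_one] at ht2
    by_cases ht20 : t2 = 0
    · -- both products are zero
      rw [ht0, zero_smul] at ht
      rw [ht20, zero_smul] at ht2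
      have aa : a * a = 0 := by
        calc a * a = (a * e') * (e * a) := by rw [ae', ea]
          _ = a * (e' * e) * a := by simp only [mul_assoc]
          _ = 0 := by rw [ht, mul_zero, zero_mul]
      have ae : a * e = 0 := by rw [← ae', mul_assoc, ht, mul_zero]
      have eb : e * b = 0 := by rw [← e'b, ← mul_assoc, ht2, zero_mul]
      have e'a : e' * a = 0 := by rw [← ea, ← mul_assoc, ht, zero_mul]
      have be' : b * e' = 0 := by rw [← be, mul_assoc, ht2, mul_zero]
      have bb : b * b = 0 := by
        calc b * b = (b * e) * (e' * b) := by rw [be, e'b]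
          _ = b * (e * e') * b := by simp only [mul_assoc]
          _ = 0 := by rw [ht2, mul_zero, zero_mul]
      obtain ⟨S, hS⟩ : ∃ S, S = a + e + e' + b := ⟨_, rfl⟩
      have hSC : S ∈ C := by
        rw [hS]
        exact C.add_mem (C.add_mem (C.add_mem haC he.mem) he'C) hbC
      have hS1 : S = (e + b) * (a + e) := by
        rw [hS, add_mul, mul_add, mul_add, ea, he.idem, ba, be]
        abel
      have hS2 : S = (a + e') * (e' + b) := by
        rw [hS, add_mul, mul_add, mul_add, ae', ab, hee', e'b]
        abel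
      have hSS : S * S = (2 : K) • S := by
        rw [two_smul]
        nth_rewrite 1 [hS2]
        nth_rewrite 1 [hS1]
        have h1 : (e' + b) * (e + b) = b + b := by
          rw [add_mul, mul_add, mul_add, ht, e'b, be, bb]
          abel
        calc (a + e') * (e' + b) * ((e + b) * (a + e)) =
            (a + e') * ((e' + b) * (e + b)) * (a + e) := by simp only [mul_assoc]
          _ = ((a + e') * b + (a + e') * b) * (a + e) := by rw [h1, mul_add (a + e')]
          _ = (e + b) * (a + e) + (e + b) * (a + e) := by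
            have h2 : (a + e') * b = e + b := by rw [add_mul, ab, e'b]
            rw [h2, add_mul (e + b)]
          _ = S + S := by rw [← hS1]
      refine ⟨(2 : K)⁻¹ • S, ⟨C.smul_mem hSC _, ?_, ?_, ?_⟩, ?_, ?_, ?_⟩
      · intro h1
        have h2 : S = 0 := (smul_eq_zero.mp h1).resolve_left (inv_ne_zero two_ne_zero)
        apply he.ne
        calc e = e * S * e := by
              rw [hS, mul_add, mul_add, mul_add, ea, he.idem, ht2, eb, add_zero, add_zero,
                add_mul, ae, he.idem, zero_add]
          _ = 0 := by rw [h2, mul_zero, zero_mul]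
      · rw [smul_mul_smul_comm, hSS, smul_smul]
        congr 1
        rw [mul_assoc, inv_mul_cancel₀ (two_ne_zero (α := K)), mul_one]
      · intro c hc
        obtain ⟨s, hs⟩ := hone ((1 + b) * c * (1 + b))
          (C.mul_mem (C.mul_mem (C.add_mem C.one_mem hbC) hc) (C.add_mem C.one_mem hbC))
        have h1 : (e' + b) * c * (e + b) = s • b := by
          rw [← hs]
          calc (e' + b) * c * (e + b) = (e' * (1 + b)) * c * ((1 + b) * e) := by
                have x1 : e' * (1 + b) = e' + b := by rw [mul_add, mul_one, e'b]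
                have x2 : (1 + b) * e = e + b := by rw [add_mul, one_mul, be]
                rw [x1, x2]
            _ = e' * ((1 + b) * c * (1 + b)) * e := by simp only [mul_assoc]
        have h2 : S * c * S = s • S := by
          calc S * c * S = (a + e') * (e' + b) * c * ((e + b) * (a + e)) := by
                rw [← hS1, ← hS2]
            _ = (a + e') * ((e' + b) * c * (e + b)) * (a + e) := by simp only [mul_assoc]
            _ = s • ((a + e') * b * (a + e)) := by rw [h1, mul_smul_comm, smul_mul_assoc]
            _ = s • S := by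
              have h2 : (a + e') * b = e + b := by rw [add_mul, ab, e'b]
              rw [h2, ← hS1]
        refine ⟨(2 : K)⁻¹ * s, ?_⟩
        rw [smul_mul_assoc, smul_mul_assoc, mul_smul_comm, h2, smul_smul, smul_smul, smul_smul]
        congr 1
        ring
      · rw [mul_smul_comm, hS, mul_add, mul_add, mul_add, qa, hqe, hqe', qb]
      · rw [smul_mul_assoc, hS, add_mul, add_mul, add_mul, aq, heq, he'q, bq]
      · have h1 : Adj form S (a + e' + e + b) := by
          rw [hS]
          exact ((haa.add hA).add hA').add hbb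
        have h2 : a + e' + e + b = S := by
          rw [hS]
          abel
        rw [h2] at h1
        exact h1.smul _
    · -- the product of `e` and `e'` is not zero
      have bb : b * b = t2 • b := by
        calc b * b = (b * e) * (e' * b) := by rw [be, e'b]
          _ = b * (e * e') * b := by simp only [mul_assoc]
          _ = t2 • b := by rw [ht2, mul_smul_comm, smul_mul_assoc, bab]
      refine ⟨t2⁻¹ • b, ⟨C.smul_mem hbC _, smul_ne_zero (inv_ne_zero ht20) hb0, ?_, ?_⟩,
        ?_, ?_, hbb.smul _⟩
      · rw [smul_mul_smul_comm, bb, smul_smul]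
        congr 1
        rw [mul_assoc, inv_mul_cancel₀ ht20, mul_one]
      · intro c hc
        obtain ⟨s, hs⟩ := he'.one (b * c) (C.mul_mem hbC hc)
        have h2 : b * c * b = s • b := by
          calc b * c * b = (e' * b) * c * (e' * b) := by rw [e'b]
            _ = (e' * (b * c) * e') * b := by simp only [mul_assoc]
            _ = s • b := by rw [hs, smul_mul_assoc, e'b]
        refine ⟨t2⁻¹ * s, ?_⟩
        rw [smul_mul_assoc, smul_mul_assoc, mul_smul_comm, h2, smul_smul, smul_smul, smul_smul]
        congr 1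
        ring
      · rw [mul_smul_comm, qb]
      · rw [smul_mul_assoc, bq]
  · have ha0 : a ≠ 0 := by
      intro h1
      apply he.ne
      rw [← ab, h1, zero_mul]
    have aa : a * a = t • a := by
      calc a * a = (a * e') * (e * a) := by rw [ae', ea]
        _ = a * (e' * e) * a := by simp only [mul_assoc]
        _ = t • (a * b * a) := by rw [ht, mul_smul_comm, smul_mul_assoc]
        _ = t • a := by rw [ab, ea]
    refine ⟨t⁻¹ • a, ⟨C.smul_mem haC _, smul_ne_zero (inv_ne_zero ht0) ha0, ?_, ?_⟩,
      ?_, ?_, haa.smul _⟩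
    · rw [smul_mul_smul_comm, aa, smul_smul]
      congr 1
      rw [mul_assoc, inv_mul_cancel₀ ht0, mul_one]
    · intro c hc
      obtain ⟨s, hs⟩ := he.one (a * c) (C.mul_mem haC hc)
      have h2 : a * c * a = s • a := by
        calc a * c * a = (e * a) * c * (e * a) := by rw [ea]
          _ = (e * (a * c) * e) * a := by simp only [mul_assoc]
          _ = s • a := by rw [hs, smul_mul_assoc, ea]
      refine ⟨t⁻¹ * s, ?_⟩
      rw [smul_mul_assoc, smul_mul_assoc, mul_smul_comm, h2, smul_smul, smul_smul, smul_smul]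
      congr 1
      ring
    · rw [mul_smul_comm, qa]
    · rw [smul_mul_assoc, aq]

end Pool.Agent.Lib.MP_640417_ag.T3
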